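import Pool.Agent.helper93.TV.Defs

/-! Basic lemmas on lists, end points and transport. -/

namespace Pool.Agent.helper93.TV

open BigOperators Finset Matrix

variable {I V : Type} [Fintype I] [DecidableEq I] [Fintype V] [DecidableEq V]

theorem mem_lists {n : ℕ} {p : List V} : p ∈ lists V n ↔ p.length = n := by
  induction n generalizing p with
  | zero => simp [lists, List.length_eq_zero_iff]
  | succ n ih =>
    simp only [lists, mem_image, mem_product, mem_univ, true_and, Prod.exists]
    constructor
    · rintro ⟨e, q, hq, rfl⟩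
      simp [ih.1 hq]
    · intro h
      cases p with
      | nil => simp at h
      | cons e q =>
        refine ⟨e, q, ih.2 ?_, rfl⟩
        simpa using h

theorem sum_lists_zero {M : Type*} [AddCommMonoid M] (f : List V → M) :
    ∑ p ∈ lists V 0, f p = f [] := by
  simp [lists]

theorem sum_lists_succ {M : Type*} [AddCommMonoid M] (n : ℕ) (f : List V → M) :
    ∑ p ∈ lists V (n + 1), f p = ∑ e, ∑ p ∈ lists V n, f (e :: p) := by
  rw [lists, Finset.sum_image, Finset.sum_product]
  rintro ⟨e, p⟩ _ ⟨e', p'⟩ _ h
  simp only [List.cons.injEq] at h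
  exact Prod.ext h.1 h.2

theorem sum_lists_add {M : Type*} [AddCommMonoid M] (n k : ℕ) (f : List V → M) :
    ∑ w ∈ lists V (n + k), f w = ∑ p ∈ lists V n, ∑ q ∈ lists V k, f (p ++ q) := by
  induction n generalizing f with
  | zero => rw [Nat.zero_add, sum_lists_zero]; simp
  | succ n ih =>
    rw [show n + 1 + k = (n + k) + 1 by omega, sum_lists_succ, sum_lists_succ]
    refine Finset.sum_congr rfl fun e _ => ?_
    rw [ih]
    simp

theorem en_append (D : FD I V) (a : I) (p q : List V) :
    D.en a (p ++ q) = D.en (D.en a p) q := by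
  induction p generalizing a with
  | nil => simp [FD.en]
  | cons e p ih => simp [FD.en, ih]

theorem ok_append (D : FD I V) (X : Finset I) (a : I) (p q : List V) :
    D.ok X a (p ++ q) ↔ D.ok X a p ∧ D.ok X (D.en a p) q := by
  induction p generalizing a with
  | nil => simp [FD.ok, FD.en]
  | cons e p ih => simp [FD.ok, FD.en, ih, and_assoc]

@[simp] theorem tp_nil (c : V → V → V → V → ℂ) (l l' : V) :
    tp c l [] [] l' = if l = l' then 1 else 0 := by simp [tp]

@[simp] theorem tp_cons (c : V → V → V → V → ℂ) (l e e' l' : V) (p p' : List V) :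
    tp c l (e :: p) (e' :: p') l' = ∑ l'', c l e e' l'' * tp c l'' p p' l' := by simp [tp]

@[simp] theorem tp_nil_cons (c : V → V → V → V → ℂ) (l e' l' : V) (p' : List V) :
    tp c l [] (e' :: p') l' = 0 := by simp [tp]

@[simp] theorem tp_cons_nil (c : V → V → V → V → ℂ) (l e l' : V) (p : List V) :
    tp c l (e :: p) [] l' = 0 := by simp [tp]

theorem tp_length (c : V → V → V → V → ℂ) (l l' : V) (p p' : List V)
    (h : tp c l p p' l' ≠ 0) : p.length = p'.length := by
  induction p generalizing l p' with
  | nil => cases p' with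
    | nil => rfl
    | cons e' p' => simp at h
  | cons e p ih => cases p' with
    | nil => simp at h
    | cons e' p' =>
      rw [tp_cons] at h
      obtain ⟨l'', _, h2⟩ := Finset.exists_ne_zero_of_sum_ne_zero h
      have := ih l'' p' (right_ne_zero_of_mul h2)
      simp [this]

/-- Supports of the transport: p and p' are paths with the same labels. -/
theorem tp_supp (D : FD I V) (X : Finset I) (c : V → V → V → V → ℂ) (hc : D.Conn X c)
    (l l' : V) (p p' : List V) (h : tp c l p p' l' ≠ 0) :
    D.ok X (D.t l) p ∧ D.ok X (D.s2 l) p' ∧ D.s1 l = D.s1 l' ∧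
      D.s2 l' = D.en (D.s2 l) p' ∧ D.t l' = D.en (D.t l) p ∧ p.map D.s2 = p'.map D.s2 := by
  induction p generalizing l p' with
  | nil => cases p' with
    | nil =>
      simp only [tp_nil, ne_eq, ite_eq_right_iff, one_ne_zero, imp_false, not_not] at h
      subst h
      simp [FD.ok, FD.en]
    | cons e' p' => simp at h
  | cons e p ih => cases p' with
    | nil => simp at h
    | cons e' p' =>
      rw [tp_cons] at h
      obtain ⟨l'', _, h2⟩ := Finset.exists_ne_zero_of_sum_ne_zero h
      obtain ⟨hcp, hX1, hX2⟩ := hc.supp _ _ _ _ (left_ne_zero_of_mul h2)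
      obtain ⟨h3, h4, h5, h6, h7, h8⟩ := ih l'' p' (right_ne_zero_of_mul h2)
      obtain ⟨c1, c2, c3, c4, c5, c6⟩ := hcp
      refine ⟨⟨c1.symm, hX2, ?_⟩, ⟨c4.symm, ?_, ?_⟩, ?_, ?_, ?_, ?_⟩
      · rw [c6]; exact h3
      · rw [← c5]; exact hX2
      · rw [c2]; exact h4
      · rw [c3, h5]
      · rw [h6, ← c2]; rfl
      · rw [h7, ← c6]; rfl
      · simp [c5, h8]

/-- Transport through a composed path. -/
theorem tp_append (c : V → V → V → V → ℂ) (l l' : V) (p p' r r' : List V)
    (h : p.length = p'.length) :
    tp c l (p ++ r) (p' ++ r') l' = ∑ l'', tp c l p p' l'' * tp c l'' r r' l' := by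
  induction p generalizing l p' with
  | nil => cases p' with
    | nil => simp
    | cons e' p' => simp at h
  | cons e p ih => cases p' with
    | nil => simp at h
    | cons e' p' =>
      have h' : p.length = p'.length := by simpa using h
      simp only [List.cons_append, tp_cons, ih _ _ h', Finset.mul_sum, Finset.sum_mul]
      rw [Finset.sum_comm]
      simp [mul_assoc]

end Pool.Agent.helper93.TV
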