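import Pool.Agent.helper93.TV.Spec3

/-! The class of the categories with few parameters. -/

namespace Pool.Agent.helper93.TV

open BigOperators Finset

/-- C has a generating set X (containing the unit object, closed under duality) with
kappa X at most Y. -/
def SkelCat.Kap (C : SkelCat) (Y : ℝ) : Prop := ∃ (o : Fin C.r) (d : Fin C.r → Fin C.r)
  (X : Finset (Fin C.r)), C.IsUFC o d ∧ o ∈ X ∧ (∀ x ∈ X, d x ∈ X) ∧ (∀ b, C.Gen o X b) ∧
    (C.kappa X : ℝ) ≤ Y

def CC0_out : Prop := ∃ K : ℝ, ∀ (M : ℕ) (Y : ℝ), 2 ≤ M → ∀ (k : ℕ) (E : Fin k → SkelCat),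
  (∀ i, (E i).UFC) → (∀ i j, i ≠ j → ¬ (E i).Equivalent (E j)) → (∀ i, (E i).n ≤ M) →
  (∀ i, (E i).Kap Y) →
  (k : ℝ) ≤ Real.exp (K * (Y + (M : ℝ) ^ (7 / 8 : ℝ)) * (Real.log M) ^ 2)

/-- A subfamily indexed by a finite set. -/
theorem sub_card {k : ℕ} (E : Fin k → SkelCat) (s : Finset (Fin k)) (B : ℕ)
    (h : ∀ (l : ℕ) (g : Fin l → Fin k), Function.Injective g → (∀ i, g i ∈ s) → l ≤ B) :
    s.card ≤ B := by
  refine h s.card (fun i => (s.equivFin.symm i : Fin k)) ?_ ?_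
  · intro i j hij
    exact s.equivFin.symm.injective (Subtype.ext hij)
  · intro i
    exact (s.equivFin.symm i).2

theorem CC0 (hAA : AA_out) (hF : FIB_out) : CC0_out := by
  obtain ⟨K, hK0, hK⟩ := hF
  refine ⟨K + 24 / Real.log 2, fun M Y hM k E hE hne hn hY => ?_⟩
  rcases Nat.eq_zero_or_pos k with hk | hk
  · subst hk
    simp only [Nat.cast_zero]
    positivity
  have hYpos : 0 ≤ Y := by
    obtain ⟨o, d, X, _, _, _, _, h⟩ := hY ⟨0, hk⟩
    exact le_trans (Nat.cast_nonneg _) h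
  have hM1 : (1 : ℝ) < M := by exact_mod_cast hM
  have hM0 : (0 : ℝ) < M := by linarith
  have hlog2 : 0 < Real.log 2 := Real.log_pos (by norm_num)
  have hlogM : Real.log 2 ≤ Real.log M :=
    Real.log_le_log (by norm_num) (by exact_mod_cast hM)
  have hlogM0 : 0 < Real.log M := lt_of_lt_of_le hlog2 hlogM
  set b : ℕ := ⌊Real.exp (24 * Y * Real.log M)⌋₊ with hb
  have hfib : ∀ i, (univ.filter fun j => (E j).ring = (E i).ring).card ≤ b := by
    intro i
    refine sub_card E _ b fun l g hg hs => ?_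
    obtain ⟨o, d, X, h1, h2, h3, h4, h5⟩ := hY i
    have := hAA (E i) o d X M h1 h2 h3 h4 (hn i) hM l (fun j => E (g j)) (fun j => hE _)
      (fun j => (Finset.mem_filter.1 (hs j)).2)
      (fun j j' hjj' => hne _ _ fun h => hjj' (hg h))
    rw [hb]
    apply Nat.le_floor
    have h6 : (l : ℝ) ≤ (M : ℝ) ^ (24 * (E i).kappa X) := by exact_mod_cast this
    refine h6.trans ?_
    rw [← Real.rpow_natCast, Real.rpow_def_of_pos hM0]
    apply Real.exp_le_exp.2
    push_cast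
    have : Real.log M * (24 * ((E i).kappa X : ℝ)) ≤ Real.log M * (24 * Y) := by
      apply mul_le_mul_of_nonneg_left _ hlogM0.le
      linarith
    linarith
  have h7 := hK k E hE M b hM hn hfib
  have h8 : (b : ℝ) ≤ Real.exp (24 * Y * Real.log M) := Nat.floor_le (Real.exp_pos _).le
  refine h7.trans ((mul_le_mul_of_nonneg_left h8 (Real.exp_pos _).le).trans ?_)
  rw [← Real.exp_add]
  apply Real.exp_le_exp.2
  have h9 : Real.log M ≤ (Real.log M) ^ 2 / Real.log 2 := by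
    rw [le_div_iff₀ hlog2, sq]
    exact mul_le_mul_of_nonneg_left hlogM hlogM0.le
  have h10 : 24 * Y * Real.log M ≤ 24 / Real.log 2 * Y * (Real.log M) ^ 2 := by
    calc 24 * Y * Real.log M ≤ 24 * Y * ((Real.log M) ^ 2 / Real.log 2) :=
          mul_le_mul_of_nonneg_left h9 (by positivity)
      _ = 24 / Real.log 2 * Y * (Real.log M) ^ 2 := by ring
  have hP : 0 ≤ (M : ℝ) ^ (7 / 8 : ℝ) := by positivity
  have hL : 0 ≤ (Real.log M) ^ 2 := by positivity
  have h11 : 0 ≤ 24 / Real.log 2 * (M : ℝ) ^ (7 / 8 : ℝ) * (Real.log M) ^ 2 := by positivity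
  have h12 : 0 ≤ K * Y * (Real.log M) ^ 2 := by positivity
  nlinarith [h10, h11, h12]

end Pool.Agent.helper93.TV
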