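import Pool.Agent.helper93.TV.Defs2

/-! TV, definitions for layer 3: fusion multiplicities, generation, skeletal unitary fusion
categories on labelled sets, equivalence. -/

namespace Pool.Agent.helper93.TV

open BigOperators Finset

section ring

variable {I V : Type} [Fintype I] [DecidableEq I] [Fintype V] [DecidableEq V]

/-- The multiplicity of c in a ⊗ b. -/
def FD.mlt (D : FD I V) (a b c : I) : ℕ :=
  (univ.filter fun v => D.s1 v = a ∧ D.s2 v = b ∧ D.t v = c).card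

/-- Associativity and Frobenius reciprocity of the multiplicities. -/
structure FD.Rg (D : FD I V) : Prop where
  assoc : ∀ a b c d, ∑ e, D.mlt a b e * D.mlt e c d = ∑ f, D.mlt b c f * D.mlt a f d
  frl : ∀ a b c, D.mlt a b c = D.mlt (D.du a) c b
  frr : ∀ a b c, D.mlt a b c = D.mlt c (D.du b) a

/-- b occurs in a product of objects of S. -/
inductive FD.Gen (D : FD I V) (S : Set I) : I → Prop
  | unit : FD.Gen D S D.o
  | mul (v : V) : FD.Gen D S (D.s1 v) → D.s2 v ∈ S → FD.Gen D S (D.t v)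

/-- A dimension function: a positive character of the fusion ring. -/
def FD.IsDim (D : FD I V) (d : I → ℝ) : Prop :=
  (∀ a, 0 < d a) ∧ ∀ a b,
    ∑ v ∈ univ.filter (fun v => D.s1 v = a ∧ D.s2 v = b), d (D.t v) = d a * d b

/-- The sum over x, y in X and all a, d of the square of the multiplicity of d in x ⊗ a ⊗ y. -/
def FD.kap (D : FD I V) (X : Finset I) : ℕ :=
  ∑ x ∈ X, ∑ y ∈ X, ∑ a, ∑ d, (∑ b, D.mlt x a b * D.mlt b y d) ^ 2

end ring

/-- Data of a skeletal category: r simple objects, n vertices (an orthonormal basis of the sum of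
the spaces Hom (a ⊗ b, c)) with their types, F-symbols. -/
structure SkelCat where
  r : ℕ
  n : ℕ
  s1 : Fin n → Fin r
  s2 : Fin n → Fin r
  t : Fin n → Fin r
  F : Fin n → Fin n → Fin n → Fin n → ℂ

namespace SkelCat

/-- The multiplicity of c in a ⊗ b. -/
def mult (C : SkelCat) (a b c : Fin C.r) : ℕ :=
  (univ.filter fun v => C.s1 v = a ∧ C.s2 v = b ∧ C.t v = c).card

/-- C is a skeletal unitary fusion category with unit object o and duality d. -/
structure IsUFC (C : SkelCat) (o : Fin C.r) (d : Fin C.r → Fin C.r) : Prop where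
  unit_left : ∀ a b, C.mult o a b = if a = b then 1 else 0
  unit_right : ∀ a b, C.mult a o b = if a = b then 1 else 0
  dual_dual : ∀ a, d (d a) = a
  dual : ∀ a b, C.mult a b o = if b = d a then 1 else 0
  supp : ∀ α γ β δ, C.F α γ β δ ≠ 0 → C.t α = C.s1 γ ∧ C.t β = C.s2 δ ∧ C.s1 α = C.s1 δ ∧
    C.s2 α = C.s1 β ∧ C.s2 γ = C.s2 β ∧ C.t γ = C.t δ
  row : ∀ α γ α' γ', C.t α = C.s1 γ →
    ∑ β, ∑ δ, C.F α γ β δ * star (C.F α' γ' β δ) = if α = α' ∧ γ = γ' then 1 else 0
  col : ∀ β δ β' δ', C.t β = C.s2 δ →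
    ∑ α, ∑ γ, star (C.F α γ β δ) * C.F α γ β' δ' = if β = β' ∧ δ = δ' then 1 else 0
  pentagon : ∀ α γ ε β δ ζ, ∑ ν, C.F γ ε β ν * C.F α ν δ ζ =
    ∑ μ, ∑ ρ, ∑ σ, C.F α γ μ ρ * C.F ρ ε σ ζ * C.F μ σ β δ
  triangle : ∀ ρ l γ δ, C.s2 ρ = o → C.s1 l = o → C.s1 γ = C.s1 ρ → C.s2 γ = C.s2 l →
    C.F ρ γ l δ = if γ = δ then 1 else 0
  rigid : ∀ a η l η' ρ, C.s1 η = a → C.t η = o → C.s1 l = o → C.s2 l = a → C.s1 η' = d a →
    C.t η' = o → C.s1 ρ = a → C.s2 ρ = o → C.F η l η' ρ ≠ 0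

/-- C is a skeletal unitary fusion category. -/
def UFC (C : SkelCat) : Prop := ∃ o d, C.IsUFC o d

/-- The relabelling σ of the simple objects and the unitary U (with rows the vertices of C and
columns the vertices of C') form a unitary monoidal equivalence. -/
structure IsEquiv (C C' : SkelCat) (σ : Fin C.r ≃ Fin C'.r) (U : Fin C.n → Fin C'.n → ℂ) :
    Prop where
  supp : ∀ v w, U v w ≠ 0 →
    C'.s1 w = σ (C.s1 v) ∧ C'.s2 w = σ (C.s2 v) ∧ C'.t w = σ (C.t v)
  row : ∀ v v', ∑ w, U v w * star (U v' w) = if v = v' then 1 else 0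
  col : ∀ w w', ∑ v, star (U v w) * U v w' = if w = w' then 1 else 0
  comm : ∀ α γ β' δ', ∑ α', ∑ γ', U α α' * U γ γ' * C'.F α' γ' β' δ' =
    ∑ β, ∑ δ, C.F α γ β δ * U β β' * U δ δ'

/-- Unitary monoidal equivalence. -/
def Equivalent (C C' : SkelCat) : Prop := ∃ σ U, C.IsEquiv C' σ U

/-- b occurs in a product of objects of S (o is the unit object). -/
inductive Gen (C : SkelCat) (o : Fin C.r) (S : Set (Fin C.r)) : Fin C.r → Prop
  | unit : Gen C o S o
  | mul (v : Fin C.n) : Gen C o S (C.s1 v) → C.s2 v ∈ S → Gen C o S (C.t v)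

/-- d is the Frobenius-Perron dimension: the positive character of the fusion ring. -/
def IsDim (C : SkelCat) (d : Fin C.r → ℝ) : Prop :=
  (∀ a, 0 < d a) ∧ ∀ a b,
    ∑ v ∈ univ.filter (fun v => C.s1 v = a ∧ C.s2 v = b), d (C.t v) = d a * d b

/-- The simple objects of dimension at most z generate C, z >= 1, and r z^4 is at most Y. -/
def Small (C : SkelCat) (Y : ℝ) : Prop := ∃ o d z, (∃ st, C.IsUFC o st) ∧ C.IsDim d ∧ 1 ≤ z ∧
  (∀ b, C.Gen o {a | d a ≤ z} b) ∧ (C.r : ℝ) * z ^ 4 ≤ Y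

/-- The sum over x, y in X and all a, d of the square of the multiplicity of d in x ⊗ a ⊗ y. -/
def kappa (C : SkelCat) (X : Finset (Fin C.r)) : ℕ :=
  ∑ x ∈ X, ∑ y ∈ X, ∑ a, ∑ d, (∑ b, C.mult x a b * C.mult b y d) ^ 2

/-- The fusion ring of C on the labelled basis. -/
def ring (C : SkelCat) : Σ r : ℕ, Fin r → Fin r → Fin r → ℕ := ⟨C.r, C.mult⟩

end SkelCat

end Pool.Agent.helper93.TV
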