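import Mathlib

/-!
TV : quantitative Ocneanu rigidity (second hand-in for MP_29f1cd_al).

Skeletal unitary fusion categories in vertex form.  I is the set of simple objects, V is an
orthonormal basis of the sum of all spaces Hom (a ⊗ b, c): a vertex v has the type
(s1 v, s2 v ; t v) = (a, b ; c).  The F-symbols are one function F : V → V → V → V → ℂ:

  F α γ β δ,  α : (a b ; e), γ : (e c ; d), β : (b c ; f), δ : (a f ; d),

is the entry of the unitary matrix F^{abc}_d with row (e, α, γ) and column (f, β, δ); it is 0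
when the four types do not match (FD.cp).
-/

namespace Pool.Agent.helper93.TV

open BigOperators Finset Matrix

/-- Types of the vertices, unit object o, duality du, the vertices lam a : (o a ; a),
rho a : (a o ; a), eta a : (a, du a ; o). -/
structure FD (I V : Type) where
  s1 : V → I
  s2 : V → I
  t : V → I
  o : I
  du : I → I
  lam : I → V
  rho : I → V
  eta : I → V
  s1_lam : ∀ a, s1 (lam a) = o
  s2_lam : ∀ a, s2 (lam a) = a
  t_lam : ∀ a, t (lam a) = a
  lam_unique : ∀ v, s1 v = o → v = lam (s2 v)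
  s1_rho : ∀ a, s1 (rho a) = a
  s2_rho : ∀ a, s2 (rho a) = o
  t_rho : ∀ a, t (rho a) = a
  rho_unique : ∀ v, s2 v = o → v = rho (s1 v)
  s1_eta : ∀ a, s1 (eta a) = a
  s2_eta : ∀ a, s2 (eta a) = du a
  t_eta : ∀ a, t (eta a) = o
  eta_unique : ∀ v, t v = o → v = eta (s1 v)
  du_du : ∀ a, du (du a) = a

variable {I V : Type} [Fintype I] [DecidableEq I] [Fintype V] [DecidableEq V]

/-- The four vertices fit together: rows (l, e), columns (e', l'). -/
def FD.cp (D : FD I V) (l e e' l' : V) : Prop :=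
  D.t l = D.s1 e ∧ D.t e' = D.s2 l' ∧ D.s1 l = D.s1 l' ∧ D.s2 l = D.s1 e' ∧
    D.s2 e = D.s2 e' ∧ D.t e = D.t l'

/-- c is a unitary connection with labels in X: l and l' carry a label (first object) in X,
e and e' a label (second object) in X.  For X = univ: unitary F-symbols. -/
structure FD.Conn (D : FD I V) (X : Finset I) (c : V → V → V → V → ℂ) : Prop where
  supp : ∀ l e e' l', c l e e' l' ≠ 0 → D.cp l e e' l' ∧ D.s1 l ∈ X ∧ D.s2 e ∈ X
  row : ∀ l e l₁ e₁, D.t l = D.s1 e → D.s1 l ∈ X → D.s2 e ∈ X →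
    ∑ e', ∑ l', c l e e' l' * star (c l₁ e₁ e' l') = if l = l₁ ∧ e = e₁ then 1 else 0
  col : ∀ e' l' e₁ l₁, D.t e' = D.s2 l' → D.s1 l' ∈ X → D.s2 e' ∈ X →
    ∑ l, ∑ e, star (c l e e' l') * c l e e₁ l₁ = if e' = e₁ ∧ l' = l₁ then 1 else 0

/-- The pentagon equation. -/
def Pent (F : V → V → V → V → ℂ) : Prop := ∀ α γ ε β δ ζ,
  ∑ ν, F γ ε β ν * F α ν δ ζ = ∑ μ, ∑ ρ, ∑ σ, F α γ μ ρ * F ρ ε σ ζ * F μ σ β δ

/-- Unitary F-symbols satisfying the pentagon equation. -/
structure FD.UF (D : FD I V) (F : V → V → V → V → ℂ) : Prop where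
  conn : D.Conn univ F
  pent : Pent F

/-- A skeletal unitary fusion category: unitary F-symbols, pentagon, triangle, rigidity. -/
structure FD.UFS (D : FD I V) (F : V → V → V → V → ℂ) : Prop where
  uf : D.UF F
  tri : ∀ γ δ, F (D.rho (D.s1 γ)) γ (D.lam (D.s2 γ)) δ = if γ = δ then 1 else 0
  rigid : ∀ a, F (D.eta a) (D.lam a) (D.eta (D.du a)) (D.rho a) ≠ 0

/-- A unitary gauge transformation (change of orthonormal bases of the spaces
Hom (a ⊗ b, c)). -/
structure FD.Gau (D : FD I V) (u : V → V → ℂ) : Prop where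
  supp : ∀ v w, u v w ≠ 0 → D.s1 v = D.s1 w ∧ D.s2 v = D.s2 w ∧ D.t v = D.t w
  row : ∀ v w, ∑ x, u v x * star (u w x) = if v = w then 1 else 0
  col : ∀ v w, ∑ x, star (u x v) * u x w = if v = w then 1 else 0

/-- The transformed F-symbols. -/
def act (u : V → V → ℂ) (F : V → V → V → V → ℂ) : V → V → V → V → ℂ := fun α γ β δ =>
  ∑ α', ∑ γ', ∑ β', ∑ δ', u α α' * u γ γ' * F α' γ' β' δ' * star (u β β') * star (u δ δ')

/-- Gauge equivalence. -/
def FD.Geq (D : FD I V) (F F' : V → V → V → V → ℂ) : Prop := ∃ u, D.Gau u ∧ F' = act u F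

/-! ### Scalars and matrices attached to F -/

/-- The scalar F^{a,du a,a}_a with both channels the unit. -/
def FD.sc (D : FD I V) (F : V → V → V → V → ℂ) (a : I) : ℂ :=
  F (D.eta a) (D.lam a) (D.eta (D.du a)) (D.rho a)

/-- The dimension of a. -/
noncomputable def FD.dm (D : FD I V) (F : V → V → V → V → ℂ) (a : I) : ℝ := ‖D.sc F a‖⁻¹

/-- Bending on the right: α : (a b ; c), γ : (c, du b ; a). -/
def FD.Bm (D : FD I V) (F : V → V → V → V → ℂ) : Matrix V V ℂ :=
  fun α γ => F α γ (D.eta (D.s2 α)) (D.rho (D.s1 α))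

/-- Bending on the left: κ : (a y ; z), κ' : (du a, z ; y). -/
def FD.Cm (D : FD I V) (F : V → V → V → V → ℂ) : Matrix V V ℂ :=
  fun κ κ' => F (D.eta (D.du (D.s1 κ))) (D.lam (D.s2 κ)) κ κ'

/-- Rotation: κ : (x y ; z), γ : (y, du z ; du x). -/
def FD.Rm (D : FD I V) (F : V → V → V → V → ℂ) : Matrix V V ℂ :=
  fun κ γ => F κ (D.eta (D.t κ)) γ (D.eta (D.s1 κ))

/-! ### Cochains -/

/-- F as a matrix. -/
def Fm (F : V → V → V → V → ℂ) : Matrix (V × V) (V × V) ℂ := fun x y => F x.1 x.2 y.1 y.2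

/-- Y acting on the positions 1, 2 of three. -/
def L12 (Y : Matrix (V × V) (V × V) ℂ) : Matrix (V × V × V) (V × V × V) ℂ :=
  fun x y => if x.2.2 = y.2.2 then Y (x.1, x.2.1) (y.1, y.2.1) else 0

/-- Y acting on the positions 2, 3 of three. -/
def L23 (Y : Matrix (V × V) (V × V) ℂ) : Matrix (V × V × V) (V × V × V) ℂ :=
  fun x y => if x.1 = y.1 then Y x.2 y.2 else 0

/-- Y acting on the positions 1, 3 of three. -/
def L13 (Y : Matrix (V × V) (V × V) ℂ) : Matrix (V × V × V) (V × V × V) ℂ :=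
  fun x y => if x.2.1 = y.2.1 then Y (x.1, x.2.2) (y.1, y.2.2) else 0

/-- Z acting on the first of two positions. -/
def T1 (Z : Matrix V V ℂ) : Matrix (V × V) (V × V) ℂ :=
  fun x y => if x.2 = y.2 then Z x.1 y.1 else 0

/-- Z acting on the second of two positions. -/
def T2 (Z : Matrix V V ℂ) : Matrix (V × V) (V × V) ℂ :=
  fun x y => if x.1 = y.1 then Z x.2 y.2 else 0

/-- 2-cochains: Z preserves the types. -/
def FD.C2 (D : FD I V) (Z : Matrix V V ℂ) : Prop :=
  ∀ v w, Z v w ≠ 0 → D.s1 v = D.s1 w ∧ D.s2 v = D.s2 w ∧ D.t v = D.t w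

/-- 3-cochains: elements of the sum of the End (Hom (a ⊗ b ⊗ c, d)), in the left basis. -/
def FD.C3 (D : FD I V) (Y : Matrix (V × V) (V × V) ℂ) : Prop :=
  ∀ x y, Y x y ≠ 0 → D.t x.1 = D.s1 x.2 ∧ D.t y.1 = D.s1 y.2 ∧ D.s1 x.1 = D.s1 y.1 ∧
    D.s2 x.1 = D.s2 y.1 ∧ D.s2 x.2 = D.s2 y.2 ∧ D.t x.2 = D.t y.2

/-- The identity 3-cochain: the projection on the composable pairs. -/
def FD.PL (D : FD I V) : Matrix (V × V) (V × V) ℂ :=
  fun x y => if x = y ∧ D.t x.1 = D.s1 x.2 then 1 else 0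

/-- Face maps from 3-cochains to 4-cochains. -/
def f0 (F : V → V → V → V → ℂ) (Y : Matrix (V × V) (V × V) ℂ) :
    Matrix (V × V × V) (V × V × V) ℂ :=
  L12 (Fm F) * L23 (Fm F) * L12 Y * (L23 (Fm F))ᴴ * (L12 (Fm F))ᴴ

def f1 (Y : Matrix (V × V) (V × V) ℂ) : Matrix (V × V × V) (V × V × V) ℂ := L23 Y

def f2 (F : V → V → V → V → ℂ) (Y : Matrix (V × V) (V × V) ℂ) :
    Matrix (V × V × V) (V × V × V) ℂ :=
  L12 (Fm F) * L23 Y * (L12 (Fm F))ᴴ

def f3 (F : V → V → V → V → ℂ) (Y : Matrix (V × V) (V × V) ℂ) :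
    Matrix (V × V × V) (V × V × V) ℂ :=
  L23 (Fm F) * L13 Y * (L23 (Fm F))ᴴ

def f4 (Y : Matrix (V × V) (V × V) ℂ) : Matrix (V × V × V) (V × V × V) ℂ := L12 Y

/-- Face maps from 2-cochains to 3-cochains. -/
def g0 (F : V → V → V → V → ℂ) (Z : Matrix V V ℂ) : Matrix (V × V) (V × V) ℂ :=
  Fm F * T1 Z * (Fm F)ᴴ

def g1 (Z : Matrix V V ℂ) : Matrix (V × V) (V × V) ℂ := T2 Z

def g2 (F : V → V → V → V → ℂ) (Z : Matrix V V ℂ) : Matrix (V × V) (V × V) ℂ :=
  Fm F * T2 Z * (Fm F)ᴴ

def g3 (Z : Matrix V V ℂ) : Matrix (V × V) (V × V) ℂ := T1 Z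

/-- The differential on 3-cochains. -/
def dd (F : V → V → V → V → ℂ) (Y : Matrix (V × V) (V × V) ℂ) :
    Matrix (V × V × V) (V × V × V) ℂ :=
  f0 F Y - f1 Y + f2 F Y - f3 F Y + f4 Y

/-- The differential on 2-cochains. -/
def dp (F : V → V → V → V → ℂ) (Z : Matrix V V ℂ) : Matrix (V × V) (V × V) ℂ :=
  g0 F Z - g1 Z + g2 F Z - g3 Z

/-- The weight of a vertex in the partial trace. -/
noncomputable def FD.wt (D : FD I V) (F : V → V → V → V → ℂ) (ε : V) : ℂ :=
  ((D.dm F (D.s2 ε) * D.dm F (D.t ε) / D.dm F (D.s1 ε) : ℝ) : ℂ)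

/-- The global dimension. -/
noncomputable def FD.gd (D : FD I V) (F : V → V → V → V → ℂ) : ℝ := ∑ a, (D.dm F a) ^ 2

/-- Average over the last object, from 4-cochains to 3-cochains. -/
noncomputable def FD.h3 (D : FD I V) (F : V → V → V → V → ℂ)
    (Z : Matrix (V × V × V) (V × V × V) ℂ) : Matrix (V × V) (V × V) ℂ := fun x y =>
  ((D.gd F)⁻¹ : ℝ) * ∑ ε, if D.t x.2 = D.s1 ε then
    D.wt F ε * Z (x.1, x.2, ε) (y.1, y.2, ε) else 0

/-- Average over the last object, from 3-cochains to 2-cochains. -/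
noncomputable def FD.h2 (D : FD I V) (F : V → V → V → V → ℂ)
    (Y : Matrix (V × V) (V × V) ℂ) : Matrix V V ℂ := fun v w =>
  ((D.gd F)⁻¹ : ℝ) * ∑ γ, if D.t v = D.s1 γ then D.wt F γ * Y (v, γ) (w, γ) else 0

/-! ### Paths and transport -/

/-- The lists of length n. -/
def lists (V : Type) [Fintype V] [DecidableEq V] : ℕ → Finset (List V)
  | 0 => {[]}
  | n + 1 => ((univ : Finset V) ×ˢ lists V n).image fun x => x.1 :: x.2

/-- The end point of the right path p = (e_1, e_2, ...) starting at a. -/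
def FD.en (D : FD I V) : I → List V → I
  | a, [] => a
  | _, e :: p => D.en (D.t e) p

/-- p is a right path starting at a with labels in X:
s1 e_1 = a, t e_i = s1 e_(i+1), s2 e_i in X. -/
def FD.ok (D : FD I V) (X : Finset I) : I → List V → Prop
  | _, [] => True
  | a, e :: p => D.s1 e = a ∧ D.s2 e ∈ X ∧ D.ok X (D.t e) p

/-- Transport of the left edge l : (x a ; b) through a right path p from b: the sum of
tp c l p p' l' times (p', l'), where p' is a right path from a and l' : (x a' ; b'). -/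
def tp (c : V → V → V → V → ℂ) : V → List V → List V → V → ℂ
  | l, [], [], l' => if l = l' then 1 else 0
  | l, e :: p, e' :: p', l' => ∑ l'', c l e e' l'' * tp c l'' p p' l'
  | _, _, _, _ => 0

/-- ψ is a family of operators ψ a from the right paths of length n from a to the right paths
of length n' from a (with the same end point), compatible with transport. -/
structure FD.Fam (D : FD I V) (X : Finset I) (c : V → V → V → V → ℂ) (n n' : ℕ)
    (ψ : I → List V → List V → ℂ) : Prop where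
  supp : ∀ a p q, ψ a p q ≠ 0 → p ∈ lists V n ∧ q ∈ lists V n' ∧ D.ok X a p ∧ D.ok X a q ∧
    D.en a p = D.en a q
  fl : ∀ l p q' l', D.s1 l ∈ X → p ∈ lists V n → q' ∈ lists V n' →
    ∑ q ∈ lists V n', ψ (D.t l) p q * tp c l q q' l' =
      ∑ p' ∈ lists V n, tp c l p p' l' * ψ (D.s2 l) p' q'

/-- One averaging step. -/
def FD.step (D : FD I V) (X : Finset I) (c : V → V → V → V → ℂ) (n n' : ℕ)
    (ψ : I → List V → List V → ℂ) : I → List V → List V → ℂ := fun b p q =>
  ∑ l ∈ univ.filter (fun l => D.s1 l ∈ X ∧ D.t l = b),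
    ∑ p' ∈ lists V n, ∑ q' ∈ lists V n', ∑ l',
      tp c l p p' l' * ψ (D.s2 l) p' q' * star (tp c l q q' l')

/-- k averaging steps, starting with T at the unit object. -/
def FD.iter (D : FD I V) (X : Finset I) (c : V → V → V → V → ℂ) (n n' : ℕ)
    (T : List V → List V → ℂ) : ℕ → I → List V → List V → ℂ
  | 0 => fun a p q => if a = D.o then T p q else 0
  | k + 1 => D.step X c n n' (D.iter X c n n' T k)

/-- The number of left paths of length k from the unit object to a. -/
def FD.cnt (D : FD I V) (X : Finset I) : ℕ → I → ℕ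
  | 0, a => if a = D.o then 1 else 0
  | k + 1, b => ∑ l ∈ univ.filter (fun l => D.s1 l ∈ X ∧ D.t l = b), D.cnt X k (D.s2 l)

/-- The extension of the operator T (at the unit object) to all starting points. -/
noncomputable def FD.Phi (D : FD I V) (X : Finset I) (c : V → V → V → V → ℂ) (m n n' : ℕ)
    (T : List V → List V → ℂ) : I → List V → List V → ℂ := fun b p q =>
  D.iter X c n n' T m b p q / (D.cnt X m b : ℂ)

/-- T is an operator from the paths of length n to the paths of length n' starting at the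
unit object. -/
def FD.Op (D : FD I V) (X : Finset I) (n n' : ℕ) (T : List V → List V → ℂ) : Prop :=
  ∀ p q, T p q ≠ 0 → p ∈ lists V n ∧ q ∈ lists V n' ∧ D.ok X D.o p ∧ D.ok X D.o q ∧
    D.en D.o p = D.en D.o q

/-- Matrix units. -/
def mu (p₀ q₀ : List V) : List V → List V → ℂ := fun p q => if p = p₀ ∧ q = q₀ then 1 else 0

/-- Flat connections (flatness up to length 3 m). -/
structure FD.Flat (D : FD I V) (X : Finset I) (c : V → V → V → V → ℂ) (m : ℕ) : Prop where
  conn : D.Conn X c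
  flat : ∀ n ≤ 3 * m, ∀ n' ≤ 3 * m, ∀ p₀ q₀, D.Op X n n' (mu p₀ q₀) →
    D.Fam X c n n' (D.Phi X c m n n' (mu p₀ q₀)) ∧
      D.Phi X c m n n' (mu p₀ q₀) D.o = mu p₀ q₀

/-- bp b is a right path of length m from the unit object to b. -/
def FD.Base (D : FD I V) (X : Finset I) (m : ℕ) (bp : I → List V) : Prop :=
  ∀ b, bp b ∈ lists V m ∧ D.ok X D.o (bp b) ∧ D.en D.o (bp b) = b

/-- J β, β : (a b ; d), is an orthonormal basis of the range of the projection
Phi (mu (bp b) (bp b)) on the paths of length m from a to d. -/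
structure FD.JS (D : FD I V) (X : Finset I) (c : V → V → V → V → ℂ) (m : ℕ)
    (bp : I → List V) (J : V → List V → ℂ) : Prop where
  supp : ∀ β p, J β p ≠ 0 → p ∈ lists V m ∧ D.ok X (D.s1 β) p ∧ D.en (D.s1 β) p = D.t β
  orth : ∀ β β', D.s1 β = D.s1 β' → D.s2 β = D.s2 β' →
    ∑ p ∈ lists V m, J β p * star (J β' p) = if β = β' then 1 else 0
  comp : ∀ a b p q, ∑ β ∈ univ.filter (fun β => D.s1 β = a ∧ D.s2 β = b),
    star (J β p) * J β q = D.Phi X c m m m (mu (bp b) (bp b)) a p q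

/-- The operator from paths of length m to paths of length 2 m attached to β : (b c ; f):
bp f goes to the sum of J β q times bp b followed by q. -/
def FD.Tb (D : FD I V) (m : ℕ) (bp : I → List V) (J : V → List V → ℂ) (β : V) :
    List V → List V → ℂ := fun p w =>
  if p = bp (D.t β) ∧ w.take m = bp (D.s1 β) then J β (w.drop m) else 0

/-- The vector of the right comb (β, δ) in the paths of length 2 m. -/
noncomputable def FD.Rv (D : FD I V) (X : Finset I) (c : V → V → V → V → ℂ) (m : ℕ)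
    (bp : I → List V) (J : V → List V → ℂ) (β δ : V) (w : List V) : ℂ :=
  ∑ p ∈ lists V m, J δ p * D.Phi X c m m (2 * m) (D.Tb m bp J β) (D.s1 δ) p w

/-- The vector of the left comb (α, γ) in the paths of length 2 m. -/
def Lv (m : ℕ) (J : V → List V → ℂ) (α γ : V) (w : List V) : ℂ :=
  J α (w.take m) * J γ (w.drop m)

open Classical in
/-- The F-symbols reconstructed from the connection c and the bases J. -/
noncomputable def FD.form (D : FD I V) (X : Finset I) (c : V → V → V → V → ℂ) (m : ℕ)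
    (bp : I → List V) (J : V → List V → ℂ) : V → V → V → V → ℂ := fun α γ β δ =>
  if D.cp α γ β δ then
    ∑ w ∈ lists V (2 * m), Lv m J α γ w * star (D.Rv X c m bp J β δ w) else 0

end Pool.Agent.helper93.TV
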