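import Pool.Agent.helper93.TV.Basic

/-! TV, definitions for layer 2: path operators, reconstruction, dictionary, class sets. -/

namespace Pool.Agent.helper93.TV

open BigOperators Finset Matrix

variable {I V : Type} [Fintype I] [DecidableEq I] [Fintype V] [DecidableEq V]

open Classical in
/-- ψ ⊗ 1: ψ acts on the first n (resp. n') edges, k further edges are kept. -/
noncomputable def FD.rtens (D : FD I V) (X : Finset I) (n n' k : ℕ)
    (ψ : I → List V → List V → ℂ) : I → List V → List V → ℂ := fun a w w' =>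
  if w.drop n = w'.drop n' ∧ w.drop n ∈ lists V k ∧ D.ok X (D.en a (w.take n)) (w.drop n) then
    ψ a (w.take n) (w'.take n') else 0

open Classical in
/-- 1 ⊗ ψ: the first k edges are kept, ψ (at their end point) acts on the remaining ones. -/
noncomputable def FD.ltens (D : FD I V) (X : Finset I) (k : ℕ)
    (ψ : I → List V → List V → ℂ) : I → List V → List V → ℂ := fun a w w' =>
  if w.take k = w'.take k ∧ w.take k ∈ lists V k ∧ D.ok X a (w.take k) then
    ψ (D.en a (w.take k)) (w.drop k) (w'.drop k) else 0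

/-- The standing hypotheses on a flat connection. -/
structure FD.Ctx (D : FD I V) (X : Finset I) (c : V → V → V → V → ℂ) (m : ℕ)
    (bp : I → List V) : Prop where
  flat : D.Flat X c m
  cnt : ∀ b, D.cnt X m b ≠ 0
  base : D.Base X m bp
  pos : 1 ≤ m

/-- The operator attached to the comb β : (c d ; h), δ : (b h ; k): bp k goes to bp b followed by
the vector Rv β δ. -/
noncomputable def FD.Tbb (D : FD I V) (X : Finset I) (c : V → V → V → V → ℂ) (m : ℕ)
    (bp : I → List V) (J : V → List V → ℂ) (β δ : V) : List V → List V → ℂ := fun p w =>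
  if p = bp (D.t δ) ∧ w.take m = bp (D.s1 δ) then D.Rv X c m bp J β δ (w.drop m) else 0

/-- The vector of the right comb β : (c d ; h), δ : (b h ; k), ζ : (a k ; e) in the paths of
length 3 m. -/
noncomputable def FD.RR (D : FD I V) (X : Finset I) (c : V → V → V → V → ℂ) (m : ℕ)
    (bp : I → List V) (J : V → List V → ℂ) (β δ ζ : V) (w : List V) : ℂ :=
  ∑ p ∈ lists V m, J ζ p * D.Phi X c m m (3 * m) (D.Tbb X c m bp J β δ) (D.s1 ζ) p w

/-- Calculus of the extensions Phi. -/
structure FD.Calc (D : FD I V) (X : Finset I) (c : V → V → V → V → ℂ) (m : ℕ) : Prop where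
  fam : ∀ n ≤ 3 * m, ∀ n' ≤ 3 * m, ∀ T, D.Op X n n' T →
    D.Fam X c n n' (D.Phi X c m n n' T) ∧ D.Phi X c m n n' T D.o = T
  mul : ∀ n ≤ 3 * m, ∀ n' ≤ 3 * m, ∀ n'' ≤ 3 * m, ∀ T S, D.Op X n n' T → D.Op X n' n'' S →
    D.Phi X c m n n'' (fun p q => ∑ w ∈ lists V n', T p w * S w q) =
      fun a p q => ∑ w ∈ lists V n', D.Phi X c m n n' T a p w * D.Phi X c m n' n'' S a w q
  adj : ∀ n ≤ 3 * m, ∀ n' ≤ 3 * m, ∀ T, D.Op X n n' T →
    D.Phi X c m n' n (fun p q => star (T q p)) =
      fun a p q => star (D.Phi X c m n n' T a q p)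
  rt : ∀ n n' k, n + k ≤ 3 * m → n' + k ≤ 3 * m → ∀ T, D.Op X n n' T →
    D.Phi X c m (n + k) (n' + k) (D.rtens X n n' k (fun _ => T) D.o) =
      D.rtens X n n' k (D.Phi X c m n n' T)
  lt : ∀ n n' k, k + n ≤ 3 * m → k + n' ≤ 3 * m → ∀ T, D.Op X n n' T →
    D.Phi X c m (k + n) (k + n') (D.ltens X k (D.Phi X c m n n' T) D.o) =
      D.ltens X k (D.Phi X c m n n' T)

/-! ### The connection of a skeletal category -/

/-- Restriction of the F-symbols to the labels in X. -/
def FD.restr (D : FD I V) (X : Finset I) (F : V → V → V → V → ℂ) : V → V → V → V → ℂ :=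
  fun l e e' l' => if D.s1 l ∈ X ∧ D.s2 e ∈ X then F l e e' l' else 0

/-- The operators of the category: 1_a ⊗ T in the path bases. -/
noncomputable def FD.phiF (D : FD I V) (F : V → V → V → V → ℂ) (n n' : ℕ)
    (T : List V → List V → ℂ) : I → List V → List V → ℂ := fun a p q =>
  ∑ p₀ ∈ lists V n, ∑ q₀ ∈ lists V n', ∑ β,
    tp F (D.rho a) p p₀ β * T p₀ q₀ * star (tp F (D.rho a) q q₀ β)

/-- The bases given by the category. -/
noncomputable def FD.J0 (D : FD I V) (F : V → V → V → V → ℂ) (bp : I → List V) :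
    V → List V → ℂ := fun β p => star (tp F (D.rho (D.s1 β)) p (bp (D.s2 β)) β)

/-! ### The parameter space -/

/-- The index set of the entries of a connection. -/
def FD.Q (D : FD I V) (X : Finset I) : Type :=
  {x : V × V × V × V // D.cp x.1 x.2.1 x.2.2.1 x.2.2.2 ∧ D.s1 x.1 ∈ X ∧ D.s2 x.2.1 ∈ X}

noncomputable instance (D : FD I V) (X : Finset I) : Fintype (D.Q X) := by
  classical
  unfold FD.Q
  infer_instance

noncomputable instance (D : FD I V) (X : Finset I) : DecidableEq (D.Q X) := Classical.decEq _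

open Classical in
/-- The connection with given real coordinates. -/
noncomputable def FD.cof (D : FD I V) (X : Finset I) (x : D.Q X × Bool → ℝ) :
    V → V → V → V → ℂ := fun l e e' l' =>
  if h : D.cp l e e' l' ∧ D.s1 l ∈ X ∧ D.s2 e ∈ X then
    (⟨x (⟨(l, e, e', l'), h⟩, false), x (⟨(l, e, e', l'), h⟩, true)⟩ : ℂ) else 0

/-- The flat variety. -/
def FD.FV (D : FD I V) (X : Finset I) (m : ℕ) : Set (D.Q X × Bool → ℝ) :=
  {x | D.Flat X (D.cof X x) m}

/-- The class set of F: the flat connections from which F can be reconstructed. -/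
def FD.Om (D : FD I V) (X : Finset I) (m : ℕ) (bp : I → List V) (F : V → V → V → V → ℂ) :
    Set (D.Q X × Bool → ℝ) :=
  {x | D.Flat X (D.cof X x) m ∧ ∃ J, D.JS X (D.cof X x) m bp J ∧
    D.form X (D.cof X x) m bp J = F}

/-- J as a point of a finite dimensional space. -/
def ext (m : ℕ) (j : V → (lists V m) → ℂ) : V → List V → ℂ := fun β p =>
  if h : p ∈ lists V m then j β ⟨p, h⟩ else 0

end Pool.Agent.helper93.TV
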