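import Pool.Agent.helper93.TV.Spec1
import Pool.Agent.helper10.TV.H12
import Pool.Agent.helper11.TV.G
import Pool.Agent.helper19.TV.H3
import Pool.Agent.helper2.TV.BB
import Pool.Agent.helper21.TV.Min
import Pool.Agent.helper27.TV.H4
import Pool.Agent.helper31.TV.S2
import Pool.Agent.helper37.TV.S1
import Pool.Agent.helper38.TV.CC
import Pool.Agent.helper40.TV.CR
import Pool.Agent.helper42.TV.H0
import Pool.Agent.helper43.TV.Coc
import Pool.Agent.helper43.TV.U1
import Pool.Agent.helper49.TV.CS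
import Pool.Agent.helper64.TV.X1
import Pool.Agent.helper69.TV.CB
import Pool.Agent.helper71.TV.DI
import Pool.Agent.helper74.TV.Rig
import Pool.Agent.helper76.TV.Cr
import Pool.Agent.helper77.TV.Q2
import Pool.Agent.helper8.TV.DU
import Pool.Agent.helper84.TV.RU
import Pool.Agent.helper92.TV.Q1
import Pool.Agent.helper98.TV.U2

/-! TV, layer 1 assembled. -/

namespace Pool.Agent.helper93.TV

open BigOperators Finset Matrix

/-- Ocneanu rigidity: Rig_stmt without hypotheses. -/
theorem L1_Rig : Rig_stmt :=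
  Rig DI H0 H12 H3 H4 X1 Coc G Min Cr U1 U2 S1 S2 BB CC CR CB RU DU CS Q1 Q2

theorem L1_Dims {I V : Type} [Fintype I] [DecidableEq I] [Fintype V] [DecidableEq V]
    (D : FD I V) (F : V → V → V → V → ℂ) (h : D.UFS F) : D.Dims F :=
  DI CS CR RU DU BB CC CB U1 U2 S1 I V D F h

theorem L1_BB {I V : Type} [Fintype I] [DecidableEq I] [Fintype V] [DecidableEq V]
    (D : FD I V) (F : V → V → V → V → ℂ) (h : D.UFS F) (β γ : V) :
    ∑ α, star (D.Bm F β α) * D.Bm F α γ = if β = γ then D.sc F (D.s2 β) else 0 :=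
  BB U2 S1 I V D F h β γ

theorem L1_CC {I V : Type} [Fintype I] [DecidableEq I] [Fintype V] [DecidableEq V]
    (D : FD I V) (F : V → V → V → V → ℂ) (h : D.UFS F) (κ κ'' : V) :
    ∑ κ', D.Cm F κ κ' * star (D.Cm F κ' κ'') = if κ = κ'' then star (D.sc F (D.s1 κ)) else 0 :=
  CC U1 S1 I V D F h κ κ''

end Pool.Agent.helper93.TV
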