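import Pool.Agent.helper93.TV.Spec3

/-! The two counting bounds combined. -/

namespace Pool.Agent.helper93.TV

open BigOperators Finset

def CC3_out : Prop := ∃ K : ℝ, ∀ (M : ℕ) (Y : ℝ), 2 ≤ M → ∀ (k : ℕ) (E : Fin k → SkelCat),
  (∀ i, (E i).UFC) → (∀ i j, i ≠ j → ¬ (E i).Equivalent (E j)) → (∀ i, (E i).n ≤ M) →
  (∀ i, (E i).Small Y) →
  (k : ℝ) ≤ Real.exp (K * (min Y ((M : ℝ) ^ 4) + (M : ℝ) ^ (7 / 8 : ℝ)) * (Real.log M) ^ 3)

theorem CC3 (h1 : CC1_out) (h2 : CC2_out) : CC3_out := by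
  obtain ⟨K₁, hK₁⟩ := h1
  obtain ⟨K₂, hK₂⟩ := h2
  refine ⟨|K₁| + |K₂| / (Real.log 2) ^ 2, fun M Y hM k E hE hne hn hs => ?_⟩
  have hM1 : (1 : ℝ) < M := by exact_mod_cast hM
  have hM0 : (0 : ℝ) < M := by linarith
  have hlog2 : 0 < Real.log 2 := Real.log_pos (by norm_num)
  have hlogM : Real.log 2 ≤ Real.log M :=
    Real.log_le_log (by norm_num) (by exact_mod_cast hM)
  have hlogM0 : 0 < Real.log M := lt_of_lt_of_le hlog2 hlogM
  have hP : 0 ≤ (M : ℝ) ^ (7 / 8 : ℝ) := by positivity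
  have hA : 0 ≤ |K₂| / (Real.log 2) ^ 2 := by positivity
  rcases Nat.eq_zero_or_pos k with hk | hk
  · subst hk
    simp only [Nat.cast_zero]
    positivity
  have hY0 : 0 ≤ Y := by
    obtain ⟨_, _, z, _, _, hz, _, h⟩ := hs ⟨0, hk⟩
    refine le_trans ?_ h
    positivity
  rcases le_total Y ((M : ℝ) ^ 4) with hY | hY
  · rw [min_eq_left hY]
    refine (hK₁ M Y hM k E hE hne hn hs).trans (Real.exp_le_exp.2 ?_)
    apply mul_le_mul_of_nonneg_right _ (by positivity)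
    apply mul_le_mul_of_nonneg_right _ (by positivity)
    linarith [le_abs_self K₁]
  · rw [min_eq_right hY]
    refine (hK₂ M hM k E hE hne hn).trans (Real.exp_le_exp.2 ?_)
    have h3 : Real.log M ≤ (Real.log M) ^ 3 / (Real.log 2) ^ 2 := by
      rw [le_div_iff₀ (by positivity)]
      have : (Real.log 2) ^ 2 ≤ (Real.log M) ^ 2 := pow_le_pow_left₀ hlog2.le hlogM 2
      nlinarith
    calc K₂ * (M : ℝ) ^ 4 * Real.log M ≤ |K₂| * (M : ℝ) ^ 4 * Real.log M := by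
          apply mul_le_mul_of_nonneg_right _ hlogM0.le
          exact mul_le_mul_of_nonneg_right (le_abs_self K₂) (by positivity)
      _ ≤ |K₂| * (M : ℝ) ^ 4 * ((Real.log M) ^ 3 / (Real.log 2) ^ 2) :=
          mul_le_mul_of_nonneg_left h3 (by positivity)
      _ = |K₂| / (Real.log 2) ^ 2 * (M : ℝ) ^ 4 * (Real.log M) ^ 3 := by ring
      _ ≤ (|K₁| + |K₂| / (Real.log 2) ^ 2) * ((M : ℝ) ^ 4 + (M : ℝ) ^ (7 / 8 : ℝ)) *
            (Real.log M) ^ 3 := by
          apply mul_le_mul_of_nonneg_right _ (by positivity)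
          apply mul_le_mul _ _ (by positivity) (by positivity)
          · linarith [abs_nonneg K₁]
          · linarith

end Pool.Agent.helper93.TV
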