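import Pool.Agent.helper93.TV.Spec2

/-! Row SI (backup). -/

namespace Pool.Agent.helper93.TV

open BigOperators Finset Matrix

section
variable {I V : Type} [Fintype I] [DecidableEq I] [Fintype V] [DecidableEq V]

theorem SI_iter_zero (D : FD I V) (X : Finset I) (c : V → V → V → V → ℂ) (n n' k : ℕ) :
    D.iter X c n n' (fun _ _ => 0) k = fun _ _ _ => 0 := by
  induction k with
  | zero =>
    funext a p q
    simp [FD.iter]
  | succ k ih =>
    funext a p q
    simp [FD.iter, FD.step, ih]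

theorem SI_Phi_zero (D : FD I V) (X : Finset I) (c : V → V → V → V → ℂ) (m n n' : ℕ) :
    D.Phi X c m n n' (fun _ _ => 0) = fun _ _ _ => 0 := by
  funext a p q
  simp [FD.Phi, SI_iter_zero]

theorem SI_op (D : FD I V) (X : Finset I) (c : V → V → V → V → ℂ) (m : ℕ) (bp : I → List V)
    (J : V → List V → ℂ) (hb : D.Base X m bp)
    (hR : ∀ β δ w, D.Rv X c m bp J β δ w ≠ 0 → w ∈ lists V (2 * m) ∧ D.ok X (D.s1 δ) w ∧
      D.en (D.s1 δ) w = D.t δ) (β δ : V) :
    D.Op X m (3 * m) (D.Tbb X c m bp J β δ) := by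
  intro p w h
  unfold FD.Tbb at h
  split_ifs at h with hc
  · obtain ⟨rfl, h2⟩ := hc
    obtain ⟨h3, h4, h5⟩ := hR _ _ _ h
    obtain ⟨b1, b2, b3⟩ := hb (D.t δ)
    obtain ⟨c1, c2, c3⟩ := hb (D.s1 δ)
    have hw : w = bp (D.s1 δ) ++ w.drop m := by
      rw [← h2]
      exact (List.take_append_drop m w).symm
    refine ⟨b1, ?_, b2, ?_, ?_⟩
    · rw [mem_lists] at c1 h3 ⊢
      rw [hw, List.length_append, c1, h3]
      ring
    · rw [hw, ok_append]
      refine ⟨c2, ?_⟩
      rw [c3]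
      exact h4
    · rw [b3, hw, en_append, c3, h5]
  · exact absurd rfl h

theorem SI_TS (D : FD I V) (X : Finset I) (c : V → V → V → V → ℂ) (m : ℕ) (bp : I → List V)
    (J : V → List V → ℂ) (hb : D.Base X m bp) (β δ β' δ' : V)
    (hR : ∑ w ∈ lists V (2 * m), D.Rv X c m bp J β δ w * star (D.Rv X c m bp J β' δ' w) =
      if β = β' ∧ δ = δ' then 1 else 0)
    (h1 : D.s1 δ = D.s1 δ') :
    (fun p q => ∑ w ∈ lists V (3 * m), D.Tbb X c m bp J β δ p w *
      star (D.Tbb X c m bp J β' δ' q w)) =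
      if β = β' ∧ δ = δ' then mu (bp (D.t δ)) (bp (D.t δ)) else fun _ _ => 0 := by
  funext p q
  have key : ∑ w ∈ lists V (3 * m), D.Tbb X c m bp J β δ p w *
      star (D.Tbb X c m bp J β' δ' q w) =
      if p = bp (D.t δ) ∧ q = bp (D.t δ') then (if β = β' ∧ δ = δ' then 1 else 0) else 0 := by
    rw [show 3 * m = m + 2 * m by ring, sum_lists_add]
    by_cases hp : p = bp (D.t δ) ∧ q = bp (D.t δ')
    · rw [if_pos hp, ← hR]
      rw [Finset.sum_eq_single (bp (D.s1 δ))]
      · apply Finset.sum_congr rfl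
        intro v hv
        have hl : (bp (D.s1 δ)).length = m := mem_lists.1 (hb (D.s1 δ)).1
        have e1 : (bp (D.s1 δ) ++ v).take m = bp (D.s1 δ) := by
          rw [← hl, List.take_left']
          rfl
        have e2 : (bp (D.s1 δ) ++ v).drop m = v := by
          rw [← hl, List.drop_left']
          rfl
        unfold FD.Tbb
        rw [e1, e2, if_pos ⟨hp.1, rfl⟩, if_pos ⟨hp.2, by rw [h1]⟩]
      · intro u hu hne
        apply Finset.sum_eq_zero
        intro v hv
        have hl : u.length = m := mem_lists.1 hu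
        have e1 : (u ++ v).take m = u := by
          rw [← hl, List.take_left']
          rfl
        unfold FD.Tbb
        rw [e1, if_neg (fun h => hne h.2), zero_mul]
      · intro h
        exact absurd (hb (D.s1 δ)).1 h
    · rw [if_neg hp]
      apply Finset.sum_eq_zero
      intro u _
      apply Finset.sum_eq_zero
      intro v _
      unfold FD.Tbb
      by_cases h3 : p = bp (D.t δ)
      · have h4 : ¬ q = bp (D.t δ') := fun h => hp ⟨h3, h⟩
        rw [if_neg (fun h : q = bp (D.t δ') ∧ _ => h4 h.1), star_zero, mul_zero]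
      · rw [if_neg (fun h : p = bp (D.t δ) ∧ _ => h3 h.1), zero_mul]
  rw [key]
  by_cases hβ : β = β' ∧ δ = δ'
  · obtain ⟨rfl, rfl⟩ := hβ
    simp [mu]
  · simp [hβ]

end

theorem SI : SI_stmt := by
  intro hSR hSL I V _ _ _ _ D X c m bp J hctx hcalc hJ
  have hb := hctx.base
  obtain ⟨_, _, hRsupp⟩ := hSL I V D X c m bp J hctx hcalc hJ
  obtain ⟨_, hRR⟩ := hSR I V D X c m bp J hctx hcalc hJ
  have hop := SI_op D X c m bp J hb hRsupp
  intro β δ ζ β' δ' ζ' hs1 hs2 hd1 hz1 htβ htβ' ht ht'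
  have hm1 : m ≤ 3 * m := by omega
  have hm3 : 3 * m ≤ 3 * m := le_rfl
  have hadj := hcalc.adj m hm1 (3 * m) hm3 _ (hop β' δ')
  have hopS : D.Op X (3 * m) m (fun p q => star (D.Tbb X c m bp J β' δ' q p)) := by
    intro p q h
    have h' : D.Tbb X c m bp J β' δ' q p ≠ 0 := by
      intro h0
      apply h
      simp [h0]
    obtain ⟨a1, a2, a3, a4, a5⟩ := hop β' δ' q p h'
    exact ⟨a2, a1, a4, a3, a5.symm⟩
  have hmul := hcalc.mul m hm1 (3 * m) hm3 m hm1 _ _ (hop β δ) hopS
  rw [hadj, SI_TS D X c m bp J hb β δ β' δ' (hRR β δ β' δ' hs1 hs2 hd1 htβ htβ') hd1] at hmul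
  have hin : ∀ a p q, ∑ w ∈ lists V (3 * m), D.Phi X c m m (3 * m) (D.Tbb X c m bp J β δ) a p w *
      star (D.Phi X c m m (3 * m) (D.Tbb X c m bp J β' δ') a q w) =
      D.Phi X c m m m (if β = β' ∧ δ = δ' then mu (bp (D.t δ)) (bp (D.t δ)) else fun _ _ => 0)
        a p q := by
    intro a p q
    rw [hmul]
  have hexp : ∑ w ∈ lists V (3 * m), D.RR X c m bp J β δ ζ w *
      star (D.RR X c m bp J β' δ' ζ' w) =
      ∑ p ∈ lists V m, ∑ q ∈ lists V m, J ζ p * star (J ζ' q) *
        D.Phi X c m m m (if β = β' ∧ δ = δ' then mu (bp (D.t δ)) (bp (D.t δ)) else fun _ _ => 0)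
          (D.s1 ζ) p q := by
    simp only [← hin]
    simp only [FD.RR, star_sum, star_mul', Finset.sum_mul_sum, ← hz1]
    rw [Finset.sum_comm]
    apply Finset.sum_congr rfl
    intro p _
    rw [Finset.sum_comm]
    apply Finset.sum_congr rfl
    intro q _
    rw [Finset.mul_sum]
    apply Finset.sum_congr rfl
    intro w _
    ring
  rw [hexp]
  by_cases hβ : β = β' ∧ δ = δ'
  · obtain ⟨rfl, rfl⟩ := hβ
    simp only [and_self, if_true, true_and]
    have hcomp := hJ.comp (D.s1 ζ) (D.t δ)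
    simp only [← hcomp]
    have hre : ∑ p ∈ lists V m, ∑ q ∈ lists V m, J ζ p * star (J ζ' q) *
        ∑ x ∈ univ.filter (fun x => D.s1 x = D.s1 ζ ∧ D.s2 x = D.t δ), star (J x p) * J x q =
        ∑ x ∈ univ.filter (fun x => D.s1 x = D.s1 ζ ∧ D.s2 x = D.t δ),
          (∑ p ∈ lists V m, J ζ p * star (J x p)) * (∑ q ∈ lists V m, J x q * star (J ζ' q)) := by
      simp only [Finset.mul_sum]
      have e1 : ∀ p ∈ lists V m, ∑ q ∈ lists V m,
          ∑ x ∈ univ.filter (fun x => D.s1 x = D.s1 ζ ∧ D.s2 x = D.t δ),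
            J ζ p * star (J ζ' q) * (star (J x p) * J x q) =
          ∑ x ∈ univ.filter (fun x => D.s1 x = D.s1 ζ ∧ D.s2 x = D.t δ),
            ∑ q ∈ lists V m, J ζ p * star (J ζ' q) * (star (J x p) * J x q) := by
        intro p _
        rw [Finset.sum_comm]
      rw [Finset.sum_congr rfl e1, Finset.sum_comm]
      apply Finset.sum_congr rfl
      intro x _
      rw [Finset.sum_comm]
      apply Finset.sum_congr rfl
      intro q _
      rw [Finset.sum_mul]
      apply Finset.sum_congr rfl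
      intro p _
      ring
    rw [hre]
    have hz : ∀ x ∈ univ.filter (fun x => D.s1 x = D.s1 ζ ∧ D.s2 x = D.t δ),
        (∑ p ∈ lists V m, J ζ p * star (J x p)) * (∑ q ∈ lists V m, J x q * star (J ζ' q)) =
        if x = ζ then (if ζ = ζ' then 1 else 0) else 0 := by
      intro x hx
      simp only [Finset.mem_filter, Finset.mem_univ, true_and] at hx
      rw [hJ.orth ζ x hx.1.symm (by rw [hx.2, ht]), hJ.orth x ζ' (by rw [hx.1, hz1])
        (by rw [hx.2, ht'])]
      by_cases h : x = ζ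
      · subst h
        simp
      · rw [if_neg (fun h' => h h'.symm), if_neg h, zero_mul]
    rw [Finset.sum_congr rfl hz, Finset.sum_ite_eq']
    rw [if_pos (by simp [ht])]
  · have hβ2 : ¬ (β = β' ∧ δ = δ' ∧ ζ = ζ') := fun h => hβ ⟨h.1, h.2.1⟩
    simp only [hβ, hβ2, if_false, SI_Phi_zero, mul_zero, Finset.sum_const_zero]

end Pool.Agent.helper93.TV
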