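import Pool.Agent.helper93.TV.Spec2

/-! Row SJ (backup). -/

namespace Pool.Agent.helper93.TV

open BigOperators Finset Matrix

section
variable {I V : Type} [Fintype I] [DecidableEq I] [Fintype V] [DecidableEq V]

noncomputable def SJu (D : FD I V) (m : ℕ) (J J' : V → List V → ℂ) (β β' : V) : ℂ :=
  if D.s1 β' = D.s1 β ∧ D.s2 β' = D.s2 β then ∑ p ∈ lists V m, J' β p * star (J β' p) else 0

theorem SJ_mul {D : FD I V} {X : Finset I} {c : V → V → V → V → ℂ} {m : ℕ} {bp : I → List V}
    {J J' : V → List V → ℂ} (h : D.JS X c m bp J) (h' : D.JS X c m bp J') (β : V)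
    (p : List V) : ∑ x, SJu D m J J' β x * J x p = J' β p := by
  unfold SJu
  simp only [ite_mul, zero_mul]
  rw [← Finset.sum_filter]
  have e1 : ∀ x, (∑ q ∈ lists V m, J' β q * star (J x q)) * J x p =
      ∑ q ∈ lists V m, J' β q * (star (J x q) * J x p) := by
    intro x
    rw [Finset.sum_mul]
    exact Finset.sum_congr rfl fun q _ => by ring
  simp only [e1]
  rw [Finset.sum_comm]
  have e2 : ∀ q, ∑ x ∈ univ.filter (fun x => D.s1 x = D.s1 β ∧ D.s2 x = D.s2 β),
      J' β q * (star (J x q) * J x p) =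
      ∑ x ∈ univ.filter (fun x => D.s1 x = D.s1 β ∧ D.s2 x = D.s2 β),
      J' β q * (star (J' x q) * J' x p) := by
    intro q
    rw [← Finset.mul_sum, ← Finset.mul_sum, h.comp, h'.comp]
  simp only [e2]
  rw [Finset.sum_comm]
  have e3 : ∀ x ∈ univ.filter (fun x => D.s1 x = D.s1 β ∧ D.s2 x = D.s2 β),
      ∑ q ∈ lists V m, J' β q * (star (J' x q) * J' x p) = if β = x then J' x p else 0 := by
    intro x hx
    rw [Finset.mem_filter] at hx
    have := h'.orth β x hx.2.1.symm hx.2.2.symm
    calc ∑ q ∈ lists V m, J' β q * (star (J' x q) * J' x p)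
        = (∑ q ∈ lists V m, J' β q * star (J' x q)) * J' x p := by
          rw [Finset.sum_mul]
          exact Finset.sum_congr rfl fun q _ => by ring
      _ = _ := by rw [this]; split_ifs <;> simp
  rw [Finset.sum_congr rfl e3]
  simp

theorem SJ_row {D : FD I V} {X : Finset I} {c : V → V → V → V → ℂ} {m : ℕ} {bp : I → List V}
    {J J' : V → List V → ℂ} (h : D.JS X c m bp J) (h' : D.JS X c m bp J') (v w : V) :
    ∑ x, SJu D m J J' v x * star (SJu D m J J' w x) = if v = w then 1 else 0 := by
  by_cases hs : D.s1 v = D.s1 w ∧ D.s2 v = D.s2 w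
  · have e1 : ∀ x, SJu D m J J' v x * star (SJu D m J J' w x) =
        ∑ q ∈ lists V m, star (J' w q) * (SJu D m J J' v x * J x q) := by
      intro x
      by_cases hx : D.s1 x = D.s1 w ∧ D.s2 x = D.s2 w
      · conv_lhs => rw [show SJu D m J J' w x = ∑ p ∈ lists V m, J' w p * star (J x p) from
          if_pos hx]
        rw [star_sum, Finset.mul_sum]
        apply Finset.sum_congr rfl
        intro q _
        rw [star_mul', star_star]
        ring
      · have h1 : SJu D m J J' w x = 0 := if_neg hx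
        have h2 : SJu D m J J' v x = 0 := if_neg (by rw [hs.1, hs.2]; exact hx)
        simp [h1, h2]
    simp only [e1]
    rw [Finset.sum_comm]
    simp only [← Finset.mul_sum, SJ_mul h h']
    rw [← h'.orth v w hs.1 hs.2]
    exact Finset.sum_congr rfl fun q _ => mul_comm _ _
  · rw [if_neg (fun e => hs ⟨by rw [e], by rw [e]⟩)]
    apply Finset.sum_eq_zero
    intro x _
    by_cases hx : D.s1 x = D.s1 w ∧ D.s2 x = D.s2 w
    · have h2 : SJu D m J J' v x = 0 := if_neg (by
        rintro ⟨h3, h4⟩
        exact hs ⟨by rw [← h3, hx.1], by rw [← h4, hx.2]⟩)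
      rw [h2, zero_mul]
    · have h1 : SJu D m J J' w x = 0 := if_neg hx
      rw [h1, star_zero, mul_zero]

theorem SJ_star {D : FD I V} {m : ℕ} {J J' : V → List V → ℂ} (v x : V) :
    star (SJu D m J J' x v) = SJu D m J' J v x := by
  unfold SJu
  by_cases hx : D.s1 v = D.s1 x ∧ D.s2 v = D.s2 x
  · rw [if_pos hx, if_pos ⟨hx.1.symm, hx.2.symm⟩, star_sum]
    apply Finset.sum_congr rfl
    intro q _
    rw [star_mul', star_star, mul_comm]
  · rw [if_neg hx, if_neg (fun h => hx ⟨h.1.symm, h.2.symm⟩), star_zero]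

end

theorem SJ : SJ_stmt := by
  intro I V _ _ _ _ D X c m bp J J' h h'
  refine ⟨SJu D m J J', ⟨?_, fun v w => SJ_row h h' v w, ?_⟩, ?_⟩
  · intro v w hne
    by_cases hx : D.s1 w = D.s1 v ∧ D.s2 w = D.s2 v
    · rw [show SJu D m J J' v w = ∑ p ∈ lists V m, J' v p * star (J w p) from
        if_pos hx] at hne
      obtain ⟨p, _, hp⟩ := Finset.exists_ne_zero_of_sum_ne_zero hne
      have h1 : J' v p ≠ 0 := left_ne_zero_of_mul hp
      have h2 : J w p ≠ 0 := by
        intro h0
        apply right_ne_zero_of_mul hp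
        rw [h0, star_zero]
      have h3 := (h'.supp v p h1).2.2
      have h4 := (h.supp w p h2).2.2
      rw [hx.1] at h4
      exact ⟨hx.1.symm, hx.2.symm, by rw [← h3, h4]⟩
    · exact absurd (if_neg hx) hne
  · intro v w
    have e : ∀ x, star (SJu D m J J' x v) * SJu D m J J' x w =
        SJu D m J' J v x * star (SJu D m J' J w x) := by
      intro x
      rw [SJ_star, ← SJ_star (J := J) (J' := J') w x, star_star]
    simp only [e]
    exact SJ_row h' h v w
  · funext β p
    exact (SJ_mul h h' β p).symm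

end Pool.Agent.helper93.TV
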