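import Pool.Agent.helper93.TV.Defs

/-!
TV, layer 1: algebra of the F-symbols and Ocneanu rigidity.

Conventions for hints: F^{abc}_d etc. as in Defs.  In every sum below the supports
(FD.Conn.supp) match the types, so that identities hold for ALL arguments; when an argument has
the wrong type both sides are 0.  All identities of this layer were checked numerically for
Rep(A4) (with a multiplicity 2 vertex space, random gauge) and Rep(S3).
-/

namespace Pool.Agent.helper93.TV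

open BigOperators Finset Matrix

/-- Row U1 (F^{o,a,b} = 1).
Proof.  Pentagon with α = lam o, γ = lam (s1 ε), ε : (a b ; c), β, δ = lam c, ζ = lam c.  The
only possible ν, μ, ρ are ν = lam (t β), μ = lam a, ρ = lam a (lam_unique; note lam o = rho o by
uniqueness, so tri gives F (lam o) (lam c) (lam c) (lam c) = 1 and
F (lam o) (lam a) (lam a) (lam a) = 1 - tri with γ = δ = lam a, s1 = s2 side: rho o = lam o).
Result: the matrix L γ β = F (lam (s1 γ)) γ β (lam (t γ)) (for β of the same type as γ) satisfies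
L = L * L, and L is unitary by Conn.row (in the row sum over e', l' only l' = lam (t e')
contributes), so L = 1. -/
def U1_stmt : Prop := ∀ (I V : Type) [Fintype I] [DecidableEq I] [Fintype V] [DecidableEq V]
  (D : FD I V) (F : V → V → V → V → ℂ), D.UFS F →
  ∀ γ β, F (D.lam (D.s1 γ)) γ β (D.lam (D.t γ)) = if γ = β then 1 else 0

/-- Row U2 (F^{a,b,o} = 1).
Proof.  As U1, with the pentagon for the objects a, b, o, o: γ = rho (t α), ε = rho (t α),
β = lam o = rho o, and the matrix L α δ = F α (rho (t α)) (rho (s2 α)) δ satisfies L = L * L. -/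
def U2_stmt : Prop := ∀ (I V : Type) [Fintype I] [DecidableEq I] [Fintype V] [DecidableEq V]
  (D : FD I V) (F : V → V → V → V → ℂ), D.UFS F →
  ∀ α δ, F α (D.rho (D.t α)) (D.rho (D.s2 α)) δ = if α = δ then 1 else 0

/-- Row S1 (left star relation).
Proof.  Fix x = s2 β, b = s1 β.  Multiply the pentagon (variables α γ ε β δ ζ there) by
star (F α γ (eta x) (rho b)) and sum over α, γ.  By Conn.col (X = univ) the right side becomes
the sum over σ of F (rho b) ε σ ζ * F (eta x) σ β δ, i.e. (tri) [ε = ζ and s1 ε = b] times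
F (eta x) (lam (s2 ε)) β δ.  Then multiply by star (F α₀ ν₀ δ ζ), sum over δ, ζ and use
Conn.row on the left: sum over γ of star (F α₀ γ (eta x) (rho b)) * F γ ε β ν₀ =
sum over δ of F (eta x) (lam (s2 ε)) β δ * star (F α₀ ν₀ δ ε).  Rename. -/
def S1_stmt : Prop := ∀ (I V : Type) [Fintype I] [DecidableEq I] [Fintype V] [DecidableEq V]
  (D : FD I V) (F : V → V → V → V → ℂ), D.UFS F →
  ∀ β γ κ δ, ∑ α, star (D.Bm F β α) * F α γ κ δ = ∑ κ', D.Cm F κ κ' * star (F β δ κ' γ)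

/-- Row S2 (right star relation).
Proof.  Pentagon with β = eta x, δ = rho b: left side (U2) is [s2 α = b and α = ζ] times
F γ ε (eta x) (rho (t α)).  Multiply by star (F α γ μ₀ ρ₀), sum over α, γ, use Conn.col on the
right side: sum over σ of F ρ₀ ε σ ζ * F μ₀ σ (eta x) (rho b) = sum over γ of
star (F ζ γ μ₀ ρ₀) * F γ ε (eta x) (rho (t ζ)) for b = s2 ζ and t μ₀ = s2 ρ₀.  Take star and put
x = s2 μ₀, rename ζ = α, μ₀ = κ₁, ρ₀ = δ₀, ε = κ₀. -/
def S2_stmt : Prop := U2_stmt → ∀ (I V : Type) [Fintype I] [DecidableEq I] [Fintype V]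
  [DecidableEq V] (D : FD I V) (F : V → V → V → V → ℂ), D.UFS F →
  ∀ α κ₁ δ₀ κ₀, ∑ γ, F α γ κ₁ δ₀ * star (D.Bm F γ κ₀) =
    ∑ σ, star (F δ₀ κ₀ σ α) * star (D.Bm F κ₁ σ)

/-- Row BB.
Proof.  S1 with κ = eta (du (s2 β)), δ = rho (t β): then κ' must be rho (..) and
F β (rho (t β)) (rho (s2 β)) γ = [β = γ] by U2; F α γ (eta ..) (rho ..) = Bm α γ. -/
def BB_stmt : Prop := U2_stmt → S1_stmt → ∀ (I V : Type) [Fintype I] [DecidableEq I]
  [Fintype V] [DecidableEq V] (D : FD I V) (F : V → V → V → V → ℂ), D.UFS F →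
  ∀ β γ, ∑ α, star (D.Bm F β α) * D.Bm F α γ = if β = γ then D.sc F (D.s2 β) else 0

/-- Row CC.
Proof.  S1 with β = eta a, a = s1 κ, δ = lam (t κ), γ = κ'': α must be lam a, and
F (lam a) κ'' κ (lam ..) = [κ'' = κ] by U1, star (Bm (eta a) (lam a)) = star (sc a). -/
def CC_stmt : Prop := U1_stmt → S1_stmt → ∀ (I V : Type) [Fintype I] [DecidableEq I]
  [Fintype V] [DecidableEq V] (D : FD I V) (F : V → V → V → V → ℂ), D.UFS F →
  ∀ κ κ'', ∑ κ', D.Cm F κ κ' * star (D.Cm F κ' κ'') =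
    if κ = κ'' then star (D.sc F (D.s1 κ)) else 0

/-- Row CR.
Proof.  Pentagon with α = eta (du a), γ = lam b, ε = eta b (objects du a, a, b, du b; target o):
left side is [β = eta b and δ = rho a] times F (lam b) (eta b) (eta b) (lam o) *
F (eta (du a)) (rho o) (rho a) (eta (du a)) = 1 (U1, U2; ζ = eta (du a)).  The right side is the
sum over μ, σ of X μ σ * F μ σ β δ with X μ σ = sum over ρ of Cm μ ρ * Rm ρ σ.  Multiply by
star (F μ₀ σ₀ β δ), sum over β, δ (Conn.row): X μ₀ σ₀ = star (F μ₀ σ₀ (eta b) (rho a)). -/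
def CR_stmt : Prop := U1_stmt → U2_stmt → ∀ (I V : Type) [Fintype I] [DecidableEq I]
  [Fintype V] [DecidableEq V] (D : FD I V) (F : V → V → V → V → ℂ), D.UFS F →
  ∀ α γ, ∑ κ, D.Cm F α κ * D.Rm F κ γ = star (D.Bm F α γ)

/-- Row CB.
Proof.  Pentagon for the objects a, b, du b, du a with target o: ε = eta a, ζ = eta a.
Multiply by star (F α γ (eta b) (rho a)) and sum over α, γ; on the right (Conn.col) only
μ = eta b, ρ = rho a remain, then σ = lam (du a) and F (rho a) (eta a) (lam (du a)) (eta a) = 1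
by tri: the right side is F (eta b) (lam (du a)) β δ = Cm β δ.  On the left ν = eta (t α):
F γ (eta a) β (eta (t α)) = Rm γ β and F α (eta (t α)) δ (eta a) = Rm α δ. -/
def CB_stmt : Prop := ∀ (I V : Type) [Fintype I] [DecidableEq I] [Fintype V] [DecidableEq V]
  (D : FD I V) (F : V → V → V → V → ℂ), D.UFS F →
  ∀ η β, D.Cm F η β = ∑ α, ∑ γ, star (D.Bm F α γ) * D.Rm F γ η * D.Rm F α β

/-- Row RU (the rotation is unitary).
Proof.  Conn.row for the rows (κ, eta (t κ)) and (κ', eta (t κ')): a column (e', l') with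
t l' = o has l' = eta (s1 l').  Both orders: a matrix with orthonormal rows is unitary. -/
def RU_stmt : Prop := ∀ (I V : Type) [Fintype I] [DecidableEq I] [Fintype V] [DecidableEq V]
  (D : FD I V) (F : V → V → V → V → ℂ), D.UFS F →
  D.Rm F * (D.Rm F)ᴴ = 1 ∧ (D.Rm F)ᴴ * D.Rm F = 1

/-- Row DU: |sc (du a)| = |sc a|.
Proof.  CC for κ = lam-type vertices or directly: Cm * conj Cm = diag (star (sc (s1 κ))), so
Cm is invertible, and conj Cm * Cm = diag (sc (s1 κ)); Cm κ κ' ≠ 0 implies s1 κ' = du (s1 κ), so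
Cm κ κ' * sc (s1 κ') = star (sc (s1 κ)) * Cm κ κ'.  Take κ with s1 κ = a (for example rho a) and
κ' with Cm κ κ' ≠ 0 (it exists because Cm * conj Cm has nonzero diagonal, rigid). -/
def DU_stmt : Prop := CC_stmt → U1_stmt → S1_stmt → ∀ (I V : Type) [Fintype I] [DecidableEq I]
  [Fintype V] [DecidableEq V] (D : FD I V) (F : V → V → V → V → ℂ), D.UFS F →
  ∀ a, D.sc F (D.du a) = star (D.sc F a) ∧ D.dm F (D.du a) = D.dm F a ∧ 0 < D.dm F a

/-- Row CS (Cm is a scalar multiple of a unitary on each block).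
Proof.  Write C, B, R for the matrices, bar for the entrywise star.  C R = bar B (CR),
bar B B = D₂ = diag (sc (s2 ·)) (BB), C bar C = D₁ = diag (star (sc (s1 ·))) (CC),
C = (bar B R)ᵀ R = Rᵀ Bᴴ R = Rᵀ Rᵀ Cᵀ R (CB, CR), R unitary (RU).  Then
Cᴴ = Rᴴ (bar C) (bar R) (bar R), so P = Cᴴ C = R⁻¹ (bar C) (bar R) (bar R) C, with
bar C = C⁻¹ D₁ and D₁ bar R = C R⁻¹ C⁻¹ D₂ (from C R bar C bar R = D₂).  Hence
P = R⁻² C⁻¹ D₂ (bar R) C = R⁻² (C⁻¹ D₂ D₁⁻¹ C) R⁻¹ (C⁻¹ D₂ C).  If D = diag of a function of the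
types then C⁻¹ D C is again such a diagonal matrix because C κ κ' ≠ 0 implies that κ' has the
type (du (s1 κ), t κ ; s2 κ); similarly for R (type (s2 κ, du (t κ) ; du (s1 κ))).  So
P = R⁻³ E with E diagonal, |E κ| = Λ κ = |sc (s1 κ)| |sc (t κ)| / |sc (s2 κ)|; P is block
diagonal for the types, P = Pᴴ, P² = Pᴴ P = Eᴴ E = Λ², P is positive semidefinite and commutes
with Λ > 0, so (P - Λ)(P + Λ) = 0 and P = Λ. -/
def CS_stmt : Prop := BB_stmt → CC_stmt → CR_stmt → CB_stmt → RU_stmt → DU_stmt → U1_stmt →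
  U2_stmt → S1_stmt → ∀ (I V : Type) [Fintype I] [DecidableEq I] [Fintype V] [DecidableEq V]
  (D : FD I V) (F : V → V → V → V → ℂ), D.UFS F →
  ∀ κ κ', ∑ α, star (D.Cm F α κ) * D.Cm F α κ' =
    if κ = κ' then ((D.dm F (D.s2 κ) / (D.dm F (D.s1 κ) * D.dm F (D.t κ)) : ℝ) : ℂ) else 0

/-- Conclusions of the block about Cm and Bm used later. -/
structure FD.Dims {I V : Type} [Fintype I] [DecidableEq I] [Fintype V] [DecidableEq V]
    (D : FD I V) (F : V → V → V → V → ℂ) : Prop where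
  pos : ∀ a, 0 < D.dm F a
  du : ∀ a, D.dm F (D.du a) = D.dm F a
  char : ∀ a b, ∑ α ∈ univ.filter (fun α => D.s1 α = a ∧ D.s2 α = b), D.dm F (D.t α) =
    D.dm F a * D.dm F b
  CHC : ∀ κ κ', ∑ α, star (D.Cm F α κ) * D.Cm F α κ' =
    if κ = κ' then ((D.dm F (D.s2 κ) / (D.dm F (D.s1 κ) * D.dm F (D.t κ)) : ℝ) : ℂ) else 0
  CCH : ∀ κ κ', ∑ α, D.Cm F κ α * star (D.Cm F κ' α) =
    if κ = κ' then ((D.dm F (D.t κ) / (D.dm F (D.s1 κ) * D.dm F (D.s2 κ)) : ℝ) : ℂ) else 0
  BHB : ∀ κ κ', ∑ α, star (D.Bm F α κ) * D.Bm F α κ' =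
    if κ = κ' then ((D.dm F (D.s1 κ) / (D.dm F (D.s2 κ) * D.dm F (D.t κ)) : ℝ) : ℂ) else 0
  BBH : ∀ κ κ', ∑ α, D.Bm F κ α * star (D.Bm F κ' α) =
    if κ = κ' then ((D.dm F (D.t κ) / (D.dm F (D.s1 κ) * D.dm F (D.s2 κ)) : ℝ) : ℂ) else 0

/-- Row DI.
Proof.  CHC is CS.  C is a square matrix and Cᴴ C is an invertible diagonal matrix Λ, so
C Λ⁻¹ Cᴴ = 1; since C κ κ' ≠ 0 implies that the type of κ' is (du (s1 κ), t κ ; s2 κ) the scalar
Λ⁻¹ can be moved to the left: CCH.  char: Conn.row of the row (eta (du a), lam b) with itself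
says that the sum over κ, κ' of |F (eta (du a)) (lam b) κ κ'|² is 1, the terms are |Cm κ κ'|²
with κ : (a b ; ·), so by CCH the sum over κ : (a b ; ·) of dm (t κ) / (dm a dm b) is 1.
bar B = C R with R unitary: bar (B Bᴴ) = C R Rᴴ Cᴴ = C Cᴴ, and bar (Bᴴ B) = Rᴴ (Cᴴ C) R, where
R κ γ ≠ 0 implies that γ has the type (s2 κ, du (t κ) ; du (s1 κ)). -/
def DI_stmt : Prop := CS_stmt → CR_stmt → RU_stmt → DU_stmt → BB_stmt → CC_stmt → CB_stmt →
  U1_stmt → U2_stmt → S1_stmt → ∀ (I V : Type) [Fintype I] [DecidableEq I] [Fintype V]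
  [DecidableEq V] (D : FD I V) (F : V → V → V → V → ℂ), D.UFS F → D.Dims F

/-- Row Q1 (first crossing relation).
Proof.  Let μ₁ = dm (s1 α) / (dm (s2 α) dm (t α)), the scalar of Bᴴ B in the column α (BHB).
Multiply S1 by Bm β α and sum over β: μ₁ F α γ κ δ = sum over β, κ' of
Bm β α * Cm κ κ' * star (F β δ κ' γ).  Insert this for both factors; sum over κ with CHC
(the scalar is dm (s2 κ') / (dm (s1 κ') dm (t κ')) where t κ' = s2 γ, so that
dm (s2 γ) times it is dm (s2 κ') / dm (s1 κ') with s2 κ' = s2 δ, s1 κ' = s2 β = du (s2 α)), then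
over κ', γ with Conn.row, then over β with BHB. -/
def Q1_stmt : Prop := S1_stmt → ∀ (I V : Type) [Fintype I] [DecidableEq I] [Fintype V]
  [DecidableEq V] (D : FD I V) (F : V → V → V → V → ℂ), D.UFS F → D.Dims F →
  ∀ α δ α' δ', ∑ γ, ∑ κ, (D.dm F (D.s2 γ) : ℂ) * F α γ κ δ * star (F α' γ κ δ') =
    if α = α' ∧ δ = δ' ∧ D.s1 α = D.s1 δ then
      ((D.dm F (D.s2 δ) * D.dm F (D.t α) / D.dm F (D.s1 α) : ℝ) : ℂ) else 0

/-- Row Q2 (second crossing relation).
Proof.  S2 multiplied by Bm γ₁ κ₀ and summed over κ₀ (BBH) gives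
ν γ * F α γ κ δ = sum over κ₀, σ of Bm γ κ₀ * star (Bm κ σ) * star (F δ κ₀ σ α) with
ν γ = dm (t γ) / (dm (s1 γ) dm (s2 γ)).  Insert for both factors, sum over γ with BHB
(sum over γ of dm (t γ) (ν γ)⁻² Bm γ κ₀ star (Bm γ κ₀'): here dm (t γ) (ν γ)⁻² is a function of
the type of κ₀), then over δ, κ₀ with Conn.row, then over σ with BBH. -/
def Q2_stmt : Prop := U2_stmt → S2_stmt → ∀ (I V : Type) [Fintype I] [DecidableEq I] [Fintype V]
  [DecidableEq V] (D : FD I V) (F : V → V → V → V → ℂ), D.UFS F → D.Dims F →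
  ∀ α κ α' κ', ∑ γ, ∑ δ, (D.dm F (D.t γ) : ℂ) * F α γ κ δ * star (F α' γ κ' δ) =
    if α = α' ∧ κ = κ' ∧ D.s2 α = D.s1 κ then
      ((D.dm F (D.t α) * D.dm F (D.t κ) / D.dm F (D.s2 α) : ℝ) : ℂ) else 0

/-- Row H0 (the average commutes with the face 0).
Proof.  Expand: h3 (f0 Y) x y is 1 / gd times the sum over ε with s1 ε = t x.2 of wt ε times the
sum of F x μ ρ * F ρ ε σ ζ * Y (μ, σ) (μ', σ') * star (F ρ' ε σ' ζ) * star (F y μ' ρ').  The sum
over ε, ζ is Q2 (s2 ε = s2 σ, s1 ε = t ρ); it forces ρ = ρ', σ = σ'. -/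
def H0_stmt : Prop := Q2_stmt → U2_stmt → S2_stmt → ∀ (I V : Type) [Fintype I] [DecidableEq I]
  [Fintype V] [DecidableEq V] (D : FD I V) (F : V → V → V → V → ℂ), D.UFS F → D.Dims F →
  ∀ Y, D.C3 Y → D.h3 F (f0 F Y) = g0 F (D.h2 F Y)

/-- Row H12 (faces 1 and 2; no crossing relation needed, only supports). -/
def H12_stmt : Prop := ∀ (I V : Type) [Fintype I] [DecidableEq I] [Fintype V] [DecidableEq V]
  (D : FD I V) (F : V → V → V → V → ℂ), D.UFS F →
  ∀ Y, D.C3 Y → D.h3 F (f1 Y) = g1 (D.h2 F Y) ∧ D.h3 F (f2 F Y) = g2 F (D.h2 F Y)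

/-- Row H3 (face 3).
Proof.  h3 (f3 Y) x y is 1 / gd times the sum over ε with s1 ε = t x.2 of wt ε times the sum of
F x.2 ε β ν * Y (x.1, ν) (y.1, ν') * star (F y.2 ε β ν').  The sum over ε, β is Q1 (t ε = t ν,
s1 ε = t x.2); it forces x.2 = y.2 and ν = ν'. -/
def H3_stmt : Prop := Q1_stmt → S1_stmt → ∀ (I V : Type) [Fintype I] [DecidableEq I] [Fintype V]
  [DecidableEq V] (D : FD I V) (F : V → V → V → V → ℂ), D.UFS F → D.Dims F →
  ∀ Y, D.C3 Y → ∀ x y, D.t x.1 = D.s1 x.2 → D.h3 F (f3 F Y) x y = g3 (D.h2 F Y) x y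

/-- Row H4 (face 4).
Proof.  The sum over ε with s1 ε = a of dm (s2 ε) dm (t ε) / dm a is the sum over b of
dm b * dm b by Dims.char, i.e. gd. -/
def H4_stmt : Prop := ∀ (I V : Type) [Fintype I] [DecidableEq I] [Fintype V] [DecidableEq V]
  (D : FD I V) (F : V → V → V → V → ℂ), D.Dims F → ∀ Y, D.h3 F (f4 Y) = Y

/-- Row X1: the 3-cochain comparing two solutions.
X = Fm F' * (Fm F)ᴴ; Fm F * (Fm F)ᴴ = PL, (Fm F)ᴴ * Fm F is the projection on the columns
(β, δ) with t β = s2 δ, and the same for F' (Conn.row, Conn.col, Conn.supp). -/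
def X1_stmt : Prop := ∀ (I V : Type) [Fintype I] [DecidableEq I] [Fintype V] [DecidableEq V]
  (D : FD I V) (F F' : V → V → V → V → ℂ), D.UF F → D.UF F' →
  Fm F * (Fm F)ᴴ = D.PL ∧ D.C3 (Fm F' * (Fm F)ᴴ) ∧ (Fm F' * (Fm F)ᴴ) * Fm F = Fm F' ∧
    (Fm F' * (Fm F)ᴴ) * (Fm F' * (Fm F)ᴴ)ᴴ = D.PL

/-- Row Coc (cocycle equation up to quadratic terms).
Proof.  With X = Fm F' * (Fm F)ᴴ the two pentagons give, for all entries whose row and column
(α, γ, ε) satisfy t α = s1 γ and t γ = s1 ε,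
  f4 X * f2 X * f0 X = f1 X * f3 X.
Details: the pentagon is L12 F * L23 F * L12 F = L23 F * K F where K F maps (α, β, ν) to
(β, δ, ζ) with the entry F α ν δ ζ.  For F' = X F: L12 F' = L12 X * L12 F,
L12 F * L23 X = f2 X * L12 F (because (L12 F)ᴴ * L12 F is the projection on t μ = s2 ρ which
commutes with L23 X), L12 F * L23 F * L12 X = f0 X * L12 F * L23 F, K (X F) = L13 X * K F,
L23 F * L13 X = f3 X * L23 F.  So f4 X * f2 X * f0 X * Q = f1 X * f3 X * Q with
Q = L12 F * L23 F * L12 F and Q * Qᴴ = projection on the composable triples.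
Put X = PL + η.  On composable triples the f_i PL are the identity, so the linear part
f4 η + f2 η + f0 η - f1 η - f3 η = dd F η is minus a sum of products of two or three factors
f_i η, whose entries are at most a constant times the sum of all |η|² (all |η| are at most 2,
since the entries of X have modulus at most 1). -/
def Coc_stmt : Prop := X1_stmt → ∀ (I V : Type) [Fintype I] [DecidableEq I] [Fintype V]
  [DecidableEq V] (D : FD I V) (F : V → V → V → V → ℂ), D.UF F →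
  ∃ K : ℝ, ∀ F', D.UF F' → ∀ x y : V × V × V, D.t x.1 = D.s1 x.2.1 → D.t x.2.1 = D.s1 x.2.2 →
    D.t y.1 = D.s1 y.2.1 → D.t y.2.1 = D.s1 y.2.2 →
    ‖dd F (Fm F' * (Fm F)ᴴ - D.PL) x y‖ ≤
      K * ∑ z, ∑ w, ‖(Fm F' * (Fm F)ᴴ - D.PL) z w‖ ^ 2

/-- Row G (gauge transformations form a group, the action).
act preserves UF; the identity is a gauge transformation; act (u v) F = act u (act v F) with
(u v) x y = sum over z of u x z * v z y; the inverse of u is x y ↦ star (u y x). -/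
def G_stmt : Prop := ∀ (I V : Type) [Fintype I] [DecidableEq I] [Fintype V] [DecidableEq V]
  (D : FD I V),
  (∀ F, D.Geq F F) ∧ (∀ F F', D.Geq F F' → D.Geq F' F) ∧
  (∀ F F' F'', D.Geq F F' → D.Geq F' F'' → D.Geq F F'') ∧
  (∀ u v, D.Gau u → D.Gau v → D.Gau (fun x y => ∑ z, u x z * v z y) ∧
    ∀ F, act (fun x y => ∑ z, u x z * v z y) F = act u (act v F)) ∧
  (∀ u, D.Gau u → D.Gau (fun x y => star (u y x)) ∧ ∀ F, D.UF F →
    act (fun x y => star (u y x)) (act u F) = F) ∧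
  (∀ u F, D.Gau u → D.UF F → D.UF (act u F))

/-- Row Min (a closest gauge transform exists).
Proof.  The set of gauge transformations is compact in V → V → ℂ and u ↦ act u F' is
continuous. -/
def Min_stmt : Prop := ∀ (I V : Type) [Fintype I] [DecidableEq I] [Fintype V] [DecidableEq V]
  (D : FD I V) (F F' : V → V → V → V → ℂ),
  ∃ u, D.Gau u ∧ ∀ v, D.Gau v →
    ∑ α, ∑ γ, ∑ β, ∑ δ, ‖act u F' α γ β δ - F α γ β δ‖ ^ 2 ≤
      ∑ α, ∑ γ, ∑ β, ∑ δ, ‖act v F' α γ β δ - F α γ β δ‖ ^ 2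

/-- Row Cr (critical equation).
Suppose that no gauge transformation brings F' closer to F.  For Z antihermitian put
v_s = exp (s Z), a gauge transformation for real s.  Since the sum of |F'|² is constant on the
orbit, s ↦ Re of the sum of star F * act v_s F' is maximal at 0, so its derivative vanishes:
Re tr ((Fm F)ᴴ * ((T1 Z + T2 Z) * Fm F' - Fm F' * (T1 Z + T2 Z))) = 0.  With Fm F' = X * Fm F
(X1) this is - Re tr (X * dp F Z) = 0.  Since tr (Xᴴ * dp F Z) is minus the conjugate of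
tr (X * dp F Z) (dp F Z is antihermitian), Re tr (Xᴴ * dp F Z) = 0 as well. -/
def Cr_stmt : Prop := X1_stmt → G_stmt → ∀ (I V : Type) [Fintype I] [DecidableEq I] [Fintype V]
  [DecidableEq V] (D : FD I V) (F F' : V → V → V → V → ℂ), D.UF F → D.UF F' →
  (∀ v, D.Gau v → ∑ α, ∑ γ, ∑ β, ∑ δ, ‖F' α γ β δ - F α γ β δ‖ ^ 2 ≤
      ∑ α, ∑ γ, ∑ β, ∑ δ, ‖act v F' α γ β δ - F α γ β δ‖ ^ 2) →
  ∀ Z, D.C2 Z → Zᴴ = - Z →
    (Matrix.trace ((Fm F' * (Fm F)ᴴ - (Fm F' * (Fm F)ᴴ)ᴴ) * dp F Z)).re = 0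

/-- Row Rig (Ocneanu rigidity).
Proof.  Let F'' be the closest gauge transform of F' (Min), X = Fm F'' * (Fm F)ᴴ, η = X - PL,
A = (X - Xᴴ) / 2, S = sum of |η|² (equal to the sum of |F'' - F|², at most the sum of
|F' - F|²).  X Xᴴ = PL gives η + ηᴴ = - η ηᴴ, so |η - A| is O(S) entrywise.  By Coc,
dd F η = O(S) on composable triples, hence dd F A = O(S) there (dd F is linear, and A - η is
O(S)).  Homotopy (H0, H12, H3, H4) for the 3-cochain A, at composable x:
A x y = (h3 (dd F A)) x y - (dp F (h2 A)) x y.  Multiply by star (A x y) and sum: the second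
term contributes - (sum of star (A x y) * dp F (h2 A) x y) = tr (A * dp F (h2 A)), with real
part 0 by Cr (Z = h2 A is antihermitian: f_i, h2 commute with ᴴ, or directly).  So
sum |A|² <= K (sum |A|²)^(1/2) S, and S <= 4 sum |A|² as soon as S is small; this forces A = 0,
S = 0, F'' = F when sum |F' - F|² is small enough. -/
def Rig_stmt : Prop := ∀ (I V : Type) [Fintype I] [DecidableEq I] [Fintype V] [DecidableEq V]
  (D : FD I V) (F : V → V → V → V → ℂ), D.UFS F →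
  ∃ ε > 0, ∀ F', D.UF F' → (∀ α γ β δ, ‖F' α γ β δ - F α γ β δ‖ < ε) → D.Geq F' F

/-- The form of Rig proved by row Rig. -/
def RigRow_stmt : Prop := DI_stmt → H0_stmt → H12_stmt → H3_stmt → H4_stmt → X1_stmt →
  Coc_stmt → G_stmt → Min_stmt → Cr_stmt → U1_stmt → U2_stmt → S1_stmt → S2_stmt → BB_stmt →
  CC_stmt → CR_stmt → CB_stmt → RU_stmt → DU_stmt → CS_stmt → Q1_stmt → Q2_stmt → Rig_stmt

end Pool.Agent.helper93.TV
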