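import Pool.Agent.helper93.TV.Defs2
import Pool.Agent.helper93.TV.Spec1

/-!
TV, layer 2: transport, flat connections, reconstruction of a category from a flat connection
(rows TU ... SJ), the flat connection of a category (rows DT ... DX), class sets (rows PO ...
ONE).  Basic.lean contains: mem_lists, sum_lists_zero, sum_lists_succ, sum_lists_add, en_append,
ok_append, tp_nil, tp_cons, tp_length, tp_supp, tp_append.

Picture: a right path p = (e_1, ..., e_n) from a to b is a basis vector of Hom (a x_1 ... x_n, b)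
with x_i = s2 e_i in X.  A family ψ a (operators between path spaces from a) with
compatibility fl is a morphism between words in X acting from the right.  Everything was checked
numerically for Rep(A4), Rep(S3).
-/

namespace Pool.Agent.helper93.TV

open BigOperators Finset Matrix

/-- Row TU (the transport is unitary).
Proof by induction on n with Conn.row, Conn.col.  In the column statement, after expanding
tp_cons, the sum over l, e of star (c l e e' l'') * c l e e₁' l₂ is Conn.col; it needs
t e' = s2 l'', which holds whenever tp c l'' p p' l' ≠ 0: by tp_supp s2 l' = en (s2 l'') p' and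
ok X (s2 l'') p', to be compared with ok X (t e') p' and en (t e') p' = s2 l' (for p' = [] use
the end points, for p' = e₂ :: .. both sources are s1 e₂). -/
def TU_out : Prop := ∀ (I V : Type) [Fintype I] [DecidableEq I] [Fintype V] [DecidableEq V]
  (D : FD I V) (X : Finset I) (c : V → V → V → V → ℂ), D.Conn X c → ∀ n,
  (∀ l p l₁ p₁, D.s1 l ∈ X → p ∈ lists V n → p₁ ∈ lists V n → D.ok X (D.t l) p →
    ∑ p' ∈ lists V n, ∑ l', tp c l p p' l' * star (tp c l₁ p₁ p' l') =
      if l = l₁ ∧ p = p₁ then 1 else 0) ∧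
  (∀ p' l' p₁' l₁', D.s1 l' ∈ X → p' ∈ lists V n → p₁' ∈ lists V n →
    (∃ a, D.ok X a p' ∧ D.en a p' = D.s2 l') →
    ∑ l, ∑ p ∈ lists V n, star (tp c l p p' l') * tp c l p p₁' l₁' =
      if p' = p₁' ∧ l' = l₁' then 1 else 0)

def TU_stmt : Prop := TU_out

/-- Row FP (a compatible family is determined by its value at the unit object).
Proof.  By induction D.iter k (ψ o) b p q = cnt k b * ψ b p q: for p in lists n, q in lists n',
insert fl in D.step and use TU (row) to sum over q', l'; if p or q has the wrong length both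
sides are 0 (tp_length, Fam.supp); cnt k at o counts the left paths. -/
def FP_out : Prop := ∀ (I V : Type) [Fintype I] [DecidableEq I] [Fintype V]
  [DecidableEq V] (D : FD I V) (X : Finset I) (c : V → V → V → V → ℂ), D.Conn X c →
  ∀ m, (∀ b, D.cnt X m b ≠ 0) → ∀ n n' ψ, D.Fam X c n n' ψ →
    D.Phi X c m n n' (ψ D.o) = ψ

def FP_stmt : Prop := TU_out → FP_out

/-- Row FO (flatness for all operators).
Proof.  T is the finite sum over p₀, q₀ of T p₀ q₀ • mu p₀ q₀ and Phi is linear in T; Fam is
stable under finite linear combinations. -/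
def FO_out : Prop := ∀ (I V : Type) [Fintype I] [DecidableEq I] [Fintype V] [DecidableEq V]
  (D : FD I V) (X : Finset I) (c : V → V → V → V → ℂ) (m : ℕ), D.Flat X c m →
  ∀ n ≤ 3 * m, ∀ n' ≤ 3 * m, ∀ T, D.Op X n n' T →
    D.Fam X c n n' (D.Phi X c m n n' T) ∧ D.Phi X c m n n' T D.o = T

def FO_stmt : Prop := FO_out

/-- Row FK (closure of families under product, adjoint, tensor products with identities).
Product: direct.  Adjoint: write fl as (1 ⊗ ψ_b) W' = W (ψ_a ⊗ 1) and use both unitarity
relations TU.  rtens: w = p ++ r, w' = q' ++ r', tp_append.  ltens: w = r ++ p, tp_append, and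
tp_supp to identify t l'' = en b r and s2 l'' = en a r'. -/
def FK_out : Prop := ∀ (I V : Type) [Fintype I] [DecidableEq I] [Fintype V]
  [DecidableEq V] (D : FD I V) (X : Finset I) (c : V → V → V → V → ℂ), D.Conn X c →
  (∀ n n' n'' ψ χ, D.Fam X c n n' ψ → D.Fam X c n' n'' χ →
    D.Fam X c n n'' (fun a p q => ∑ w ∈ lists V n', ψ a p w * χ a w q)) ∧
  (∀ n n' ψ, D.Fam X c n n' ψ → D.Fam X c n' n (fun a p q => star (ψ a q p))) ∧
  (∀ n n' k ψ, D.Fam X c n n' ψ → D.Fam X c (n + k) (n' + k) (D.rtens X n n' k ψ)) ∧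
  (∀ n n' k ψ, D.Fam X c n n' ψ → D.Fam X c (k + n) (k + n') (D.ltens X k ψ))

def FK_stmt : Prop := TU_out → FK_out

/-- Row PC (calculus of Phi).
Proof.  Each identity has the form Phi (T') = ψ' for a family ψ' (FK) with ψ' o = T' (FO):
apply FP.  For rt: (rtens (Phi T)) o = rtens (fun _ => T) o because Phi T o = T. -/
def PC_out : Prop := ∀ (I V : Type) [Fintype I] [DecidableEq I] [Fintype V] [DecidableEq V]
  (D : FD I V) (X : Finset I) (c : V → V → V → V → ℂ) (m : ℕ), D.Flat X c m →
  (∀ b, D.cnt X m b ≠ 0) → D.Calc X c m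

def PC_stmt : Prop := TU_out → FP_out → FO_out → FK_out → PC_out

/-- Row SR (the vectors of the right combs are orthonormal).
Proof.  Write T β for Tb m bp J β : Op m (2 m), a = s1 δ.  The left side is the sum over p, p' of
J δ p * star (J δ' p') * (sum over w of Phi (T β) a p w * star (Phi (T β') a p' w)), and by
Calc (adj, mul) the inner sum is Phi (T β ∘ (T β')*) a p p', where (T β ∘ (T β')*) p p' =
[p = bp (t β)] [p' = bp (t β')] (sum over q of J β q * star (J β' q)) =
[β = β'] mu (bp (t β)) (bp (t β)) p p' (JS.orth, sum_lists_add).  Then JS.comp and JS.orth for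
δ, δ'. -/
def SR_out : Prop := ∀ (I V : Type) [Fintype I] [DecidableEq I] [Fintype V] [DecidableEq V]
  (D : FD I V) (X : Finset I) (c : V → V → V → V → ℂ) (m : ℕ) (bp : I → List V)
  (J : V → List V → ℂ), D.Ctx X c m bp → D.Calc X c m → D.JS X c m bp J →
  (∀ β, D.Op X m (2 * m) (D.Tb m bp J β)) ∧
  ∀ β δ β' δ', D.s1 β = D.s1 β' → D.s2 β = D.s2 β' → D.s1 δ = D.s1 δ' → D.t β = D.s2 δ →
    D.t β' = D.s2 δ' →
    ∑ w ∈ lists V (2 * m), D.Rv X c m bp J β δ w * star (D.Rv X c m bp J β' δ' w) =
      if β = β' ∧ δ = δ' then 1 else 0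

def SR_stmt : Prop := SR_out

/-- Row SL (the vectors of the left combs are orthonormal; supports of Lv and Rv). -/
def SL_out : Prop := ∀ (I V : Type) [Fintype I] [DecidableEq I] [Fintype V] [DecidableEq V]
  (D : FD I V) (X : Finset I) (c : V → V → V → V → ℂ) (m : ℕ) (bp : I → List V)
  (J : V → List V → ℂ), D.Ctx X c m bp → D.Calc X c m → D.JS X c m bp J →
  (∀ α γ α' γ', D.s1 α = D.s1 α' → D.s2 α = D.s2 α' → D.s2 γ = D.s2 γ' → D.t α = D.s1 γ →
    D.t α' = D.s1 γ' →
    ∑ w ∈ lists V (2 * m), Lv m J α γ w * star (Lv m J α' γ' w) =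
      if α = α' ∧ γ = γ' then 1 else 0) ∧
  (∀ α γ w, w ∈ lists V (2 * m) → D.t α = D.s1 γ → Lv m J α γ w ≠ 0 →
    D.ok X (D.s1 α) w ∧ D.en (D.s1 α) w = D.t γ) ∧
  (∀ β δ w, D.Rv X c m bp J β δ w ≠ 0 → w ∈ lists V (2 * m) ∧ D.ok X (D.s1 δ) w ∧
    D.en (D.s1 δ) w = D.t δ)

def SL_stmt : Prop := SL_out

/-- Row SC (both families span the same space).
Proof.  With w = p ++ q, w' = p' ++ q' the right side is
Phi (mu_b) a p p' * Phi (mu_c) (en a p) q q' (JS.comp twice; t α = en a p), mu_b = mu (bp b) (bp b).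
The left side: the sum over δ is Phi (mu_{t β}) a (JS.comp), so (Calc adj, mul) it is
Phi (sum over β : (b c ; ·) of (T β)* ∘ T β) a w w' with ((T β)* ∘ T β) w w' = [w.take m = bp b]
[w'.take m = bp b] star (J β (w.drop m)) * J β (w'.drop m), whose sum over β is
[..] [..] Phi (mu_c) b (w.drop m) (w'.drop m).  This is the product at o of
rtens (mu_b) and ltens (Phi (mu_c)); apply Calc (mul, rt, lt). -/
def SC_out : Prop := ∀ (I V : Type) [Fintype I] [DecidableEq I] [Fintype V] [DecidableEq V]
  (D : FD I V) (X : Finset I) (c : V → V → V → V → ℂ) (m : ℕ) (bp : I → List V)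
  (J : V → List V → ℂ), D.Ctx X c m bp → D.Calc X c m → D.JS X c m bp J →
  ∀ a b d w w', w ∈ lists V (2 * m) → w' ∈ lists V (2 * m) →
    ∑ β ∈ univ.filter (fun β => D.s1 β = b ∧ D.s2 β = d),
      ∑ δ ∈ univ.filter (fun δ => D.s1 δ = a ∧ D.s2 δ = D.t β),
        star (D.Rv X c m bp J β δ w) * D.Rv X c m bp J β δ w' =
    ∑ α ∈ univ.filter (fun α => D.s1 α = a ∧ D.s2 α = b),
      ∑ γ ∈ univ.filter (fun γ => D.s1 γ = D.t α ∧ D.s2 γ = d),
        star (Lv m J α γ w) * Lv m J α γ w'

def SC_stmt : Prop := SC_out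

/-- Row SU (the reconstructed F-symbols are unitary).
Proof.  Pure linear algebra from SR, SL, SC: for fixed outer types the two orthonormal families
Lv, Rv have the same projection, so the matrix of scalar products is unitary. -/
def SU_out : Prop := ∀ (I V : Type) [Fintype I] [DecidableEq I] [Fintype V] [DecidableEq V]
  (D : FD I V) (X : Finset I) (c : V → V → V → V → ℂ) (m : ℕ) (bp : I → List V)
  (J : V → List V → ℂ), D.Ctx X c m bp → D.Calc X c m → D.JS X c m bp J →
  D.Conn univ (D.form X c m bp J)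

def SU_stmt : Prop := SR_out → SL_out → SC_out → SU_out

/-- Row SE (expansion of the left combs).
Proof.  SC and SL: the sum over (β, δ) of (Lv, Rv) Rv w' is the sum over w of Lv w times the
kernel of SC, i.e. Lv w'.  The terms with t δ ≠ t γ vanish by the supports (SL). -/
def SE_out : Prop := ∀ (I V : Type) [Fintype I] [DecidableEq I] [Fintype V] [DecidableEq V]
  (D : FD I V) (X : Finset I) (c : V → V → V → V → ℂ) (m : ℕ) (bp : I → List V)
  (J : V → List V → ℂ), D.Ctx X c m bp → D.Calc X c m → D.JS X c m bp J →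
  ∀ α γ w, D.t α = D.s1 γ → w ∈ lists V (2 * m) →
    Lv m J α γ w = ∑ β, ∑ δ, D.form X c m bp J α γ β δ * D.Rv X c m bp J β δ w

def SE_stmt : Prop := SR_out → SL_out → SC_out → SE_out

/-- Row SA (three-fold combs, first expansion).
Proof.  With w = p ++ w₂ : Rv β ν (w₂) = sum over q of J ν q * Phi (T β) f q w₂, f = s1 ν = t α,
so the left side is the sum over p, q of J α p * J ν q * (ltens m (Phi (T β))) a (p ++ q) w,
a = s1 α, i.e. the sum over w₁ in lists (2 m) of Lv α ν w₁ * (ltens ..) a w₁ w.  Insert SE for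
Lv α ν w₁ and Rv δ ζ w₁ = sum of J ζ p₁ * Phi (T δ) a p₁ w₁; by Calc (lt, mul) the result is
the sum of form α ν δ ζ * J ζ p₁ * Phi (T δ ∘ ltens m (Phi (T β)) o) a p₁ w, and
T δ ∘ ltens m (Phi (T β)) o = Tbb β δ. -/
def SA_out : Prop := ∀ (I V : Type) [Fintype I] [DecidableEq I] [Fintype V] [DecidableEq V]
  (D : FD I V) (X : Finset I) (c : V → V → V → V → ℂ) (m : ℕ) (bp : I → List V)
  (J : V → List V → ℂ), D.Ctx X c m bp → D.Calc X c m → D.JS X c m bp J →
  ∀ α β ν w, D.t α = D.s1 ν → D.t β = D.s2 ν → w ∈ lists V (3 * m) →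
    J α (w.take m) * D.Rv X c m bp J β ν (w.drop m) =
      ∑ δ, ∑ ζ, D.form X c m bp J α ν δ ζ * D.RR X c m bp J β δ ζ w

def SA_stmt : Prop := SR_out → SL_out → SC_out → SE_out → SA_out

/-- Row SB (three-fold combs, second expansion).
Proof.  Rv μ ρ (w.take 2m) * J ε (w.drop 2m) is the sum over w₁ in lists (2 m) of
Lv ρ ε w₁ * (rtens m (2m) m (Phi (T μ))) a w₁ w, a = s1 ρ.  Insert SE for Lv ρ ε; by Calc
(rt, mul) it is the sum over σ, ζ of form ρ ε σ ζ * J ζ p₁ * Phi (T σ ∘ rtens (T μ) o) a p₁ w.
The operator T σ ∘ rtens (T μ) o maps bp (t σ) to bp (s1 μ) followed by Lv μ σ (note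
t μ = s1 σ); expand Lv μ σ by SE again: it is the sum over β, δ of form μ σ β δ * Tbb β δ. -/
def SB_out : Prop := ∀ (I V : Type) [Fintype I] [DecidableEq I] [Fintype V] [DecidableEq V]
  (D : FD I V) (X : Finset I) (c : V → V → V → V → ℂ) (m : ℕ) (bp : I → List V)
  (J : V → List V → ℂ), D.Ctx X c m bp → D.Calc X c m → D.JS X c m bp J →
  ∀ μ ρ ε w, D.t μ = D.s2 ρ → D.t ρ = D.s1 ε → w ∈ lists V (3 * m) →
    D.Rv X c m bp J μ ρ (w.take (2 * m)) * J ε (w.drop (2 * m)) =
      ∑ σ, ∑ ζ, ∑ β, ∑ δ, D.form X c m bp J ρ ε σ ζ * D.form X c m bp J μ σ β δ *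
        D.RR X c m bp J β δ ζ w

def SB_stmt : Prop := SR_out → SL_out → SC_out → SE_out → SB_out

/-- Row SI (the vectors of the three-fold right combs are orthonormal).
Proof as SR: Tbb β δ ∘ (Tbb β' δ')* = [β = β' and δ = δ'] mu (bp (t δ)) (bp (t δ)) by SR. -/
def SI_out : Prop := ∀ (I V : Type) [Fintype I] [DecidableEq I] [Fintype V] [DecidableEq V]
  (D : FD I V) (X : Finset I) (c : V → V → V → V → ℂ) (m : ℕ) (bp : I → List V)
  (J : V → List V → ℂ), D.Ctx X c m bp → D.Calc X c m → D.JS X c m bp J →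
  ∀ β δ ζ β' δ' ζ', D.s1 β = D.s1 β' → D.s2 β = D.s2 β' → D.s1 δ = D.s1 δ' →
    D.s1 ζ = D.s1 ζ' → D.t β = D.s2 δ → D.t β' = D.s2 δ' → D.t δ = D.s2 ζ →
    D.t δ' = D.s2 ζ' →
    ∑ w ∈ lists V (3 * m), D.RR X c m bp J β δ ζ w * star (D.RR X c m bp J β' δ' ζ' w) =
      if β = β' ∧ δ = δ' ∧ ζ = ζ' then 1 else 0

def SI_stmt : Prop := SR_out → SL_out → SI_out

/-- Row SP (pentagon).
Proof.  If t α = s1 γ and t γ = s1 ε, expand J α (w₁) * J γ (w₂) * J ε (w₃), w = w₁ ++ w₂ ++ w₃,
in two ways: J α (w₁) * Lv γ ε (w₂ ++ w₃) with SE and SA, and Lv α γ (w₁ ++ w₂) * J ε (w₃) with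
SE and SB; compare the coefficients of RR β δ ζ with SI (multiply by star (RR ..) and sum over
w; both sides are supported on combs with the same outer types, form has support cp).
Otherwise both sides of the pentagon are 0. -/
def SP_out : Prop := ∀ (I V : Type) [Fintype I] [DecidableEq I] [Fintype V] [DecidableEq V]
  (D : FD I V) (X : Finset I) (c : V → V → V → V → ℂ) (m : ℕ) (bp : I → List V)
  (J : V → List V → ℂ), D.Ctx X c m bp → D.Calc X c m → D.JS X c m bp J →
  Pent (D.form X c m bp J)

def SP_stmt : Prop := SR_out → SL_out → SC_out → SE_out → SA_out → SB_out → SI_out → SP_out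

/-- Row SG (gauge covariance of the reconstruction); Lv and Rv are bilinear in J. -/
def SG_out : Prop := ∀ (I V : Type) [Fintype I] [DecidableEq I] [Fintype V] [DecidableEq V]
  (D : FD I V) (X : Finset I) (c : V → V → V → V → ℂ) (m : ℕ) (bp : I → List V)
  (J : V → List V → ℂ) (u : V → V → ℂ), D.JS X c m bp J → D.Gau u →
  D.JS X c m bp (fun β p => ∑ β', u β β' * J β' p) ∧
    D.form X c m bp (fun β p => ∑ β', u β β' * J β' p) = act u (D.form X c m bp J)

def SG_stmt : Prop := SG_out

/-- Row SJ (the bases are unique up to gauge).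
Proof.  u β β' = sum over p of J' β p * star (J β' p) if β and β' have the same s1, s2 (then it
is 0 unless t β = t β' by JS.supp), 0 otherwise; JS.comp for J and J' and JS.orth. -/
def SJ_out : Prop := ∀ (I V : Type) [Fintype I] [DecidableEq I] [Fintype V] [DecidableEq V]
  (D : FD I V) (X : Finset I) (c : V → V → V → V → ℂ) (m : ℕ) (bp : I → List V)
  (J J' : V → List V → ℂ), D.JS X c m bp J → D.JS X c m bp J' →
  ∃ u, D.Gau u ∧ J' = fun β p => ∑ β', u β β' * J β' p

def SJ_stmt : Prop := SJ_out

/-! ### The flat connection of a skeletal category -/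

/-- Row DT (restriction of the labels): restr is a connection, and transports paths with labels
in X as F does. -/
def DT_out : Prop := ∀ (I V : Type) [Fintype I] [DecidableEq I] [Fintype V] [DecidableEq V]
  (D : FD I V) (X : Finset I) (F : V → V → V → V → ℂ), D.UF F →
  D.Conn X (D.restr X F) ∧ ∀ l p p' l', D.s1 l ∈ X →
    (D.ok X (D.t l) p ∨ D.ok X (D.s2 l) p') →
    tp (D.restr X F) l p p' l' = tp F l p p' l'

def DT_stmt : Prop := DT_out

/-- Row DP (pentagon for paths).
Proof by induction on n: n = 0 is trivial, the step is Pent for the first edges (α = l, γ = m,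
ε = first edge e, β = first edge e'' of p'') followed by the induction hypothesis. -/
def DP_out : Prop := ∀ (I V : Type) [Fintype I] [DecidableEq I] [Fintype V] [DecidableEq V]
  (F : V → V → V → V → ℂ), Pent F →
  ∀ n, ∀ l m n₁ n₂, ∀ p ∈ lists V n, ∀ p'' ∈ lists V n,
    ∑ m', tp F m p p'' m' * F l m' n₁ n₂ =
      ∑ n', ∑ l'', ∑ p' ∈ lists V n, F l m n' l'' * tp F l'' p p' n₂ * tp F n' p' p'' n₁

def DP_stmt : Prop := DP_out

/-- Row DR (DP for m = rho (t l)): by U2, F l (rho (t l)) n' l'' = [n' = rho (s2 l), l'' = l]. -/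
def DR_out : Prop := ∀ (I V : Type) [Fintype I] [DecidableEq I]
  [Fintype V] [DecidableEq V] (D : FD I V) (F : V → V → V → V → ℂ), D.UFS F →
  ∀ n, ∀ l, ∀ p ∈ lists V n, ∀ p₀ ∈ lists V n, ∀ β₁ β₂,
    ∑ β, tp F (D.rho (D.t l)) p p₀ β * F l β β₁ β₂ =
      ∑ p' ∈ lists V n, tp F l p p' β₂ * tp F (D.rho (D.s2 l)) p' p₀ β₁

def DR_stmt : Prop := U2_stmt → DP_out → DR_out

/-- Row DF (the operators of the category form compatible families).
Proof.  U (p ; p₀, β) = tp F (rho a) p p₀ β is unitary (TU for X = univ; in the column relation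
the sum over l reduces to l = rho a because s2 l = o).  DR says (1 ⊗ U_b) F = W (U_a ⊗ 1) with
b = t l, a = s2 l; so W = (1 ⊗ U_b) F (U_a)* ⊗ 1, and fl for phiF T follows:
sum over q of star (tp F (rho b) q q₀ β) * tp F l q q' l' =
sum over β₁ of F l β β₁ l' * star (tp F (rho a) q' q₀ β₁), then DR once more.  The labels of p₀
are those of p (tp_supp), which lie in X since T is supported on paths with labels in X (DT).
At o: rho o = lam o and F (lam ..) γ β (lam ..) = [γ = β] (U1), so tp F (rho o) p p₀ β is 1 if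
p = p₀ and β = lam (en o p), and 0 otherwise (for p a path from o). -/
def DF_out : Prop := ∀ (I V : Type) [Fintype I] [DecidableEq I] [Fintype V] [DecidableEq V]
  (D : FD I V) (X : Finset I) (F : V → V → V → V → ℂ), D.UFS F →
  ∀ n n' T, D.Op X n n' T → D.Fam X (D.restr X F) n n' (D.phiF F n n' T) ∧
    D.phiF F n n' T D.o = T

def DF_stmt : Prop := U1_stmt → U2_stmt → TU_out → DT_out → DR_out → DF_out

/-- Row DW (the connection of a category is flat); from DF and FP. -/
def DW_out : Prop := ∀ (I V : Type) [Fintype I] [DecidableEq I] [Fintype V] [DecidableEq V]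
  (D : FD I V) (X : Finset I) (F : V → V → V → V → ℂ), D.UFS F →
  ∀ m, (∀ b, D.cnt X m b ≠ 0) → D.Flat X (D.restr X F) m ∧
    ∀ n n' T, D.Op X n n' T → D.Phi X (D.restr X F) m n n' T = D.phiF F n n' T

def DW_stmt : Prop := DT_out → DF_out → FP_out → TU_out → U1_stmt → U2_stmt → DR_out → DP_out →
  DW_out

/-- Row DJ (the bases J0).
Proof.  orth: TU (column relation for F, X = univ) with the columns (bp b, β), (bp b, β'); only
l = rho a contributes.  comp: DW for T = mu (bp b) (bp b). -/
def DJ_out : Prop := ∀ (I V : Type) [Fintype I] [DecidableEq I] [Fintype V] [DecidableEq V]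
  (D : FD I V) (X : Finset I) (F : V → V → V → V → ℂ), D.UFS F →
  ∀ m bp, (∀ b, D.cnt X m b ≠ 0) → D.Base X m bp →
    D.JS X (D.restr X F) m bp (D.J0 F bp)

def DJ_stmt : Prop := DT_out → DW_out → TU_out → DF_out → FP_out → U1_stmt → U2_stmt → DR_out →
  DP_out → DJ_out

/-- Row DX (the category is reconstructed from its connection).
Proof.  Write J = J0 F bp, R = Rv for c = restr X F, a = s1 δ, b = s1 β.
(1) R β δ w = sum over q in lists m of J β q * star (tp F (rho a) w (bp b ++ q) δ) (t β = s2 δ):
phiF (Tb β) a p w is the sum over κ, q of tp F (rho a) p (bp (t β)) κ * J β q *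
star (tp F (rho a) w (bp b ++ q) κ), and the sum over p of J δ p * tp F (rho a) p (bp (t β)) κ
is [κ = δ].
(2) For w = p ++ q₁ (tp_append) and t α = s1 γ: the sum over β, δ of F α γ β δ * R β δ w is
sum over α' of star (tp F (rho a) p (bp b) α') * star (sum over q of tp F α' q₁ q δ *
tp F (rho b) q (bp d) β) * F α γ β δ (b = s2 α, d = s2 γ), by DR with l = α' the inner sum is the
sum over γ' of tp F (rho (t α')) q₁ (bp d) γ' * F α' γ' β δ, and Conn.row gives J α p * J γ q₁.
(3) So Lv α γ = sum of F α γ β δ * R β δ; take scalar products with R β₀ δ₀ (SR). -/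
def DX_out : Prop := ∀ (I V : Type) [Fintype I] [DecidableEq I] [Fintype V] [DecidableEq V]
  (D : FD I V) (X : Finset I) (F : V → V → V → V → ℂ), D.UFS F →
  ∀ m bp, 1 ≤ m → (∀ b, D.cnt X m b ≠ 0) → D.Base X m bp →
    D.form X (D.restr X F) m bp (D.J0 F bp) = F

def DX_stmt : Prop := PC_out → SR_out → DT_out → DW_out → DJ_out → TU_out → DF_out → FP_out →
  FO_out → FK_out → U1_stmt → U2_stmt → DR_out → DP_out → DX_out

/-! ### Class sets -/

/-- Row PO (the flat variety is the zero set of one polynomial of small degree).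
Proof.  The entries of cof X x are polynomials of degree 1 in x (real and imaginary part), tp of
paths of length n has degree n, iter k has degree k (n + n'), so the equations Conn.row,
Conn.col (degree 2), Fam.fl for Phi (mu p₀ q₀) (degree at most m (n + n') + 3 m, n, n' <= 3 m)
and Phi (mu p₀ q₀) o = mu p₀ q₀ have degree at most 6 m² + 3 m + 2; take the sum of the squares
of all real and imaginary parts.  The equations are needed only for the finitely many lists of
the right lengths; Conn.supp and Fam.supp hold automatically (cof; tp_supp, tp_length).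
Suggested: a predicate (g is given by a complex polynomial of total degree at most d) closed
under sums, products, star, constants. -/
def PO_out : Prop := ∀ (I V : Type) [Fintype I] [DecidableEq I] [Fintype V] [DecidableEq V]
  (D : FD I V) (X : Finset I) (m : ℕ), ∃ f : MvPolynomial (D.Q X × Bool) ℝ,
    f.totalDegree ≤ 12 * m ^ 2 + 6 * m + 4 ∧ (∀ x, 0 ≤ MvPolynomial.eval x f) ∧
    ∀ x, MvPolynomial.eval x f = 0 ↔ x ∈ D.FV X m

def PO_stmt : Prop := PO_out

/-- Row CT (continuity of Phi and of the reconstruction). -/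
def CT_out : Prop := ∀ (I V : Type) [Fintype I] [DecidableEq I] [Fintype V] [DecidableEq V]
  (D : FD I V) (X : Finset I) (m : ℕ) (bp : I → List V),
  (∀ n n' T a p q, Continuous fun x : D.Q X × Bool → ℝ =>
    D.Phi X (D.cof X x) m n n' T a p q) ∧
  (∀ α γ β δ, Continuous fun z : (D.Q X × Bool → ℝ) × (V → (lists V m) → ℂ) =>
    D.form X (D.cof X z.1) m bp (ext m z.2) α γ β δ)

def CT_stmt : Prop := CT_out

/-- Row BD (the flat variety is bounded): Conn.row bounds every entry by 1. -/
def BD_out : Prop := ∀ (I V : Type) [Fintype I] [DecidableEq I] [Fintype V] [DecidableEq V]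
  (D : FD I V) (X : Finset I) (m : ℕ) (x : D.Q X × Bool → ℝ), x ∈ D.FV X m → ∀ i, |x i| ≤ 1

def BD_stmt : Prop := BD_out

/-- Row PJ (projections: orthonormal basis of the range, integrality of the trace). -/
def PJ_out : Prop := ∀ (ι : Type) [Fintype ι] [DecidableEq ι] (P : Matrix ι ι ℂ), Pᴴ = P →
  P * P = P → (∃ k : ℕ, P.trace = k) ∧
    ∀ (κ : Type) [Fintype κ] [DecidableEq κ], P.trace = Fintype.card κ →
      ∃ J : Matrix κ ι ℂ, J * Jᴴ = 1 ∧ Jᴴ * J = P

def PJ_stmt : Prop := PJ_out

/-- Row RK (bases exist near a point where they exist).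
Proof.  For y in the flat variety and a, b let P be the matrix Phi (mu (bp b) (bp b)) a on the
paths p with en a p = d; it is hermitian and idempotent (Calc adj, mul), its trace is a
continuous function of y (CT) with values in the natural numbers (PJ), equal at x to the number
of vertices (a b ; d) (JS.comp, JS.orth).  Near x the traces are the same, take the bases of PJ
for all a, b, d. -/
def RK_out : Prop := ∀ (I V : Type) [Fintype I] [DecidableEq I] [Fintype V] [DecidableEq V]
  (D : FD I V) (X : Finset I) (m : ℕ) (bp : I → List V),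
  1 ≤ m → (∀ b, D.cnt X m b ≠ 0) → D.Base X m bp →
  ∀ x ∈ D.FV X m, (∃ J, D.JS X (D.cof X x) m bp J) →
    ∃ U ∈ nhds x, ∀ y ∈ U ∩ D.FV X m, ∃ J, D.JS X (D.cof X y) m bp J

def RK_stmt : Prop := PC_out → FO_out → FP_out → FK_out → TU_out → CT_out → PJ_out → RK_out

/-- Row OC (class sets are closed).
Proof.  The set of pairs (x, j) with x in the flat variety (closed by PO, bounded by BD) and
JS (ext m j), form = F is closed (CT) and bounded (JS.orth), hence compact, and Om is its
projection; JS.supp shows that J = ext m of its restriction. -/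
def OC_out : Prop := ∀ (I V : Type) [Fintype I] [DecidableEq I] [Fintype V] [DecidableEq V]
  (D : FD I V) (X : Finset I) (m : ℕ) (bp : I → List V) (F : V → V → V → V → ℂ),
  IsClosed (D.Om X m bp F)

def OC_stmt : Prop := PO_out → CT_out → BD_out → OC_out

/-- Row OO (class sets are relatively open).
Proof.  Let x_k in FV, not in Om F, converge to x, and suppose x in Om F with J.  For large k
there are J_k (RK), bounded by JS.orth; along a subsequence J_k converges to some J' which is
JS for x (CT, closedness), so J' = u J (SJ) and, replacing J_k by u* J_k (SG), we may assume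
J_k → J.  Then form J_k → form J = F (CT), form J_k is UF (SU, SP), so by rigidity (Rig) it is
gauge equivalent to F for large k, F = act v (form J_k) (G), and by SG x_k is in Om F. -/
def OO_out : Prop := ∀ (I V : Type) [Fintype I] [DecidableEq I] [Fintype V] [DecidableEq V]
  (D : FD I V) (X : Finset I) (m : ℕ) (bp : I → List V) (F : V → V → V → V → ℂ),
  1 ≤ m → (∀ b, D.cnt X m b ≠ 0) → D.Base X m bp → D.UFS F →
  IsClosed (D.FV X m \ D.Om X m bp F)

def OO_stmt : Prop := Rig_stmt → G_stmt → PC_out → FO_out → FP_out → FK_out → TU_out → SU_out →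
  SP_out → SG_out → SJ_out → SR_out → SL_out → SC_out → SE_out → SA_out → SB_out → SI_out →
  PO_out → CT_out → BD_out → PJ_out → RK_out → OO_out

/-- Row OD (class sets are disjoint) by SJ, SG. -/
def OD_out : Prop := ∀ (I V : Type) [Fintype I] [DecidableEq I] [Fintype V] [DecidableEq V]
  (D : FD I V) (X : Finset I) (m : ℕ) (bp : I → List V) (F F' : V → V → V → V → ℂ) x,
  x ∈ D.Om X m bp F → x ∈ D.Om X m bp F' → D.Geq F F'

def OD_stmt : Prop := SJ_out → SG_out → OD_out

/-- Row ON (class sets are nonempty) by DW, DJ, DX: take the x with cof X x = restr X F (DT gives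
the support of restr X F). -/
def ON_out : Prop := ∀ (I V : Type) [Fintype I] [DecidableEq I] [Fintype V] [DecidableEq V]
  (D : FD I V) (X : Finset I) (m : ℕ) (bp : I → List V) (F : V → V → V → V → ℂ),
  1 ≤ m → (∀ b, D.cnt X m b ≠ 0) → D.Base X m bp → D.UFS F → (D.Om X m bp F).Nonempty

def ON_stmt : Prop := DT_out → DW_out → DJ_out → DX_out → ON_out

/-- Row LI (linear independence for Bezout).
Proof.  Suppose the sum over x in S, β of c x β * e x * Π (g i)^(β i) is 0 and c is not 0.  Let k
be the smallest total degree |β| of a pair (x, β) with c x β ≠ 0, and x₀, with c x₀ β ≠ 0 for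
some |β| = k.  Evaluate at x₀ + τ v: g i (x₀ + τ v) = τ (A v)_i + O(τ²), A = Jacobian at x₀,
e x (x₀ + τ v) = [x = x₀] + O(τ).  Divide by τ^k, τ → 0: the sum over |β| = k of
c x₀ β * (A v)^β is 0 for all v; A is invertible, so the polynomial with coefficients c x₀ β
vanishes identically, contradiction. -/
def LI_out : Prop := ∀ (ι : Type) [Fintype ι] [DecidableEq ι] (g : ι → MvPolynomial ι ℝ)
  (S : Finset (ι → ℝ)) (e : S → MvPolynomial ι ℝ) (s : ℕ),
  (∀ x ∈ S, ∀ i, MvPolynomial.eval x (g i) = 0) →
  (∀ x ∈ S, (Matrix.of fun i j => MvPolynomial.eval x (MvPolynomial.pderiv j (g i))).det ≠ 0) →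
  (∀ x y : S, MvPolynomial.eval (y : ι → ℝ) (e x) = if x = y then 1 else 0) →
  LinearIndependent ℝ (fun z : S × (ι → Fin s) => e z.1 * ∏ i, g i ^ (z.2 i : ℕ))

def LI_stmt : Prop := LI_out

/-- Row BZ (elementary Bezout inequality for nondegenerate real zeros).
Proof.  Interpolation polynomials e x exist (product over the other points of a linear form
separating them), of degree at most q.  By LI the card S * s^K polynomials (K = card ι) of total
degree at most q + δ K s, in fact in the span of the monomials with all exponents at most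
q + δ K s, are linearly independent, so card S * s^K <= (q + δ K s + 1)^K for every s; divide by
s^K and let s → ∞. -/
def BZ_out : Prop := ∀ (ι : Type) [Fintype ι] [DecidableEq ι]
  (g : ι → MvPolynomial ι ℝ) (δ : ℕ) (S : Finset (ι → ℝ)), (∀ i, (g i).totalDegree ≤ δ) →
  (∀ x ∈ S, ∀ i, MvPolynomial.eval x (g i) = 0) →
  (∀ x ∈ S, (Matrix.of fun i j => MvPolynomial.eval x (MvPolynomial.pderiv j (g i))).det ≠ 0) →
  S.card ≤ (δ * Fintype.card ι) ^ Fintype.card ι

def BZ_stmt : Prop := LI_out → BZ_out

/-- Row ML (elementary Milnor bound).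
Proof.  Z = {f = 0} is compact.  The Ω i are disjoint compact subsets of Z, relatively open; let
U i be the open ρ-neighbourhood of Ω i, with ρ so small that the closures of the U i are
disjoint from each other and from Z \ Ω i.  On the compact boundary of U i (points at distance
ρ) f >= ε > 0.  For a vector b with small norm the function f - (b, x) has on the closure of
U i a minimum smaller than on the boundary, so it is attained inside, where grad f = b.  By Sard
(MeasureTheory.addHaar_image_eq_zero_of_det_fderiv_eq_zero for x ↦ grad f) choose b small with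
Hessian of f invertible at every solution of grad f = b.  Apply BZ to g i = pderiv i f - C (b i)
(degree at most d) and the n different solutions. -/
def ML_out : Prop := ∀ (ι : Type) [Fintype ι] [DecidableEq ι]
  (f : MvPolynomial ι ℝ) (d : ℕ), f.totalDegree ≤ d → (∀ x, 0 ≤ MvPolynomial.eval x f) →
  Bornology.IsBounded {x : ι → ℝ | MvPolynomial.eval x f = 0} →
  ∀ (n : ℕ) (Ω : Fin n → Set (ι → ℝ)), (∀ i, (Ω i).Nonempty) →
  (∀ i, Ω i ⊆ {x | MvPolynomial.eval x f = 0}) → (∀ i j, i ≠ j → Disjoint (Ω i) (Ω j)) →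
  (∀ i, IsClosed (Ω i)) → (∀ i, IsClosed ({x | MvPolynomial.eval x f = 0} \ Ω i)) →
  n ≤ (d * Fintype.card ι) ^ Fintype.card ι

def ML_stmt : Prop := LI_out → BZ_out → ML_out

/-- The conclusion of layer 2: the number of categories over one system of types. -/
def ONE_out : Prop := ∀ (I V : Type) [Fintype I] [DecidableEq I] [Fintype V] [DecidableEq V]
  (D : FD I V) (X : Finset I) (m : ℕ) (bp : I → List V),
  1 ≤ m → (∀ b, D.cnt X m b ≠ 0) → D.Base X m bp →
  ∀ (n : ℕ) (F : Fin n → V → V → V → V → ℂ), (∀ i, D.UFS (F i)) →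
  (∀ i j, i ≠ j → ¬ D.Geq (F i) (F j)) →
  n ≤ ((12 * m ^ 2 + 6 * m + 4) * (2 * Fintype.card (D.Q X))) ^ (2 * Fintype.card (D.Q X))

/-- Row ONE.
Proof.  ML for the polynomial of PO (bounded zero set by BD) and the class sets Om (F i): closed
(OC), complement closed (OO), nonempty (ON), disjoint (OD); the index set D.Q X × Bool has
2 card (D.Q X) elements. -/
def ONE_stmt : Prop := PO_out → BD_out → OC_out → OO_out → OD_out → ON_out → ML_out → ONE_out

end Pool.Agent.helper93.TV
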