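import Pool.Agent.helper93.TV.Cat
import Pool.Agent.helper93.TV.L1
import Pool.Agent.helper93.TV.Spec2
import Pool.Agent.helper93.FR.All

/-!
TV, layer 3: fusion ring part, models on a fixed vertex set, counting.  Layer 1 is available
without hypotheses (L1.lean: L1_Rig, L1_Dims, L1_BB, L1_CC, and U1, U2, ...).
-/

namespace Pool.Agent.helper93.TV

open BigOperators Finset

/-- Row FDO (types of a skeletal category).
lam a is the unique vertex of type (o, a ; a) (unit_left: exactly one), etc.  If s1 v = o then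
mult o (s2 v) (t v) is at least 1, so s2 v = t v and v = lam (s2 v) by uniqueness; the same for
rho and eta. -/
def FDO_out : Prop := ∀ (C : SkelCat) (o : Fin C.r) (d : Fin C.r → Fin C.r), C.IsUFC o d →
  ∃ D : FD (Fin C.r) (Fin C.n), D.s1 = C.s1 ∧ D.s2 = C.s2 ∧ D.t = C.t ∧ D.o = o ∧ D.du = d ∧
    D.UFS C.F

def FDO_stmt : Prop := FDO_out

/-- Row RG (multiplicities).
assoc: for fixed outer types a, b, c, d the matrix F (rows: pairs α, γ with s1 α = a, s2 α = b,
t α = s1 γ, s2 γ = c, t γ = d; columns β, δ with s1 β = b, s2 β = c, t β = s2 δ, s1 δ = a,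
t δ = d) satisfies F Fᴴ = 1 and Fᴴ F = 1, so it is square (rank or trace of F Fᴴ and Fᴴ F).
frl: by L1_CC the matrix Cm (rows of type (a, b ; c), columns of type (du a, c ; b)) times
conj (Cm) is an invertible diagonal matrix (rigid), in both orders, so it is square; frr: the
same with L1_BB and Bm (rows (a, b ; c), columns (c, du b ; a)). -/
def RG_out : Prop := ∀ (I V : Type) [Fintype I] [DecidableEq I] [Fintype V] [DecidableEq V]
  (D : FD I V) (F : V → V → V → V → ℂ), D.UFS F → D.Rg

def RG_stmt : Prop := RG_out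

/-- Row FRI (the multiplicities of a skeletal unitary fusion category form a fusion ring, and
the total multiplicity is the number of vertices).  anti: frl, frr, frl. -/
def FRI_out : Prop := ∀ (C : SkelCat) (o : Fin C.r) (d : Fin C.r → Fin C.r), C.IsUFC o d →
  Pool.Agent.helper93.FR.IsFusion C.mult o d ∧
    Pool.Agent.helper93.FR.total C.mult = C.n ∧ C.r ≤ C.n

def FRI_stmt : Prop := FDO_out → RG_out → FRI_out

/-- Row KQ (the number of parameters).
Sort the quadruples (l, e, e', l') of D.Q X by x = s1 l, a = s2 l, y = s2 e, d = t e; the number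
of pairs (l, e) is the sum over b of mlt x a b * mlt b y d, the number of pairs (e', l') is the
sum over f of mlt a y f * mlt x f d, which is the same by assoc. -/
def KQ_out : Prop := ∀ (I V : Type) [Fintype I] [DecidableEq I] [Fintype V] [DecidableEq V]
  (D : FD I V) (X : Finset I), D.Rg → Fintype.card (D.Q X) = D.kap X ∧
    D.kap X ≤ Fintype.card V ^ 4

def KQ_stmt : Prop := KQ_out

/-- Row PT (paths of length m from the unit object to every object).
Right paths: the set R_k of end points of right paths of length k from o increases with k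
(put rho o = lam o in front, o in X), and if R_k = R_(k+1) it is stable, so R_m contains every
b with Gen X b for m >= card I.  Left paths: cnt k b ≠ 0 iff du b in R_k, by induction on k
(R_(k+1) by the last edge): the type (a, x ; b) occurs iff (du x, du a ; du b) occurs
(frl, frr, frl); append the last edge (en_append, ok_append). -/
def PT_out : Prop := ∀ (I V : Type) [Fintype I] [DecidableEq I] [Fintype V] [DecidableEq V]
  (D : FD I V) (X : Finset I) (m : ℕ), D.Rg → D.o ∈ X → (∀ x ∈ X, D.du x ∈ X) →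
  (∀ b, D.Gen X b) → Fintype.card I ≤ m →
  (∀ b, D.cnt X m b ≠ 0) ∧ ∃ bp, D.Base X m bp

def PT_stmt : Prop := PT_out

/-- Row KD.
Write m x a y e for the sum over b of mlt x a b * mlt b y e.  The sum over e of m x a y e * d e
is d x d a d y; m x a y e = m (du x) e (du y) a (frl, frr, assoc), so the sum over a of
m x a y e * d a is d (du x) d e d (du y); d (du x) = d x (compare the sums over b, c of
d b * mlt x b c * d c and frl).  Hence m x a y e * d a <= d x d y d e, and the sum over e of m²
is at most (d x d y / d a) * (sum of m * d e) = (d x d y)². -/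
def KD_out : Prop := ∀ (I V : Type) [Fintype I] [DecidableEq I] [Fintype V] [DecidableEq V]
  (D : FD I V) (d : I → ℝ), D.Rg → D.IsDim d → (∀ x, d (D.du x) = d x) ∧
  (∀ x y, ((∑ a, ∑ e, (∑ b, D.mlt x a b * D.mlt b y e) ^ 2 : ℕ) : ℝ) ≤
    Fintype.card I * (d x * d y) ^ 2) ∧
  ∀ (X : Finset I) (z : ℝ), (∀ x ∈ X, d x ≤ z) →
    (D.kap X : ℝ) ≤ (X.card : ℝ) ^ 2 * (Fintype.card I * z ^ 4)

def KD_stmt : Prop := KD_out

/-- Row CL (the objects generated by a set closed under duality form a based subring).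
Product: induction on Gen X (s2 v): if s2 v is in b' ⊗ x then t v is in a ⊗ (b' ⊗ x), so by assoc
it is in (a ⊗ b') ⊗ x.  Duality: if b is in b' ⊗ x then du b is in du x ⊗ du b' (frl, frr, frl);
use the product closure. -/
def CL_out : Prop := ∀ (I V : Type) [Fintype I] [DecidableEq I] [Fintype V] [DecidableEq V]
  (D : FD I V) (X : Set I), D.Rg → (∀ x ∈ X, D.du x ∈ X) →
  (∀ v, D.Gen X (D.s1 v) → D.Gen X (D.s2 v) → D.Gen X (D.t v)) ∧
  (∀ b, D.Gen X b → D.Gen X (D.du b)) ∧ (∀ x ∈ X, D.Gen X x)

def CL_stmt : Prop := CL_out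

/-- Row DB (doubling).
Let T be the set of the c with mlt s b c ≠ 0 for some s in S; T is inside S' and disjoint from
S (if c in S then mlt s b c = mlt (du s) c b ≠ 0 and b would be in S).  The sum over s in S of
d s * (d s * d b) is the sum over c in T of (sum over s in S of d s * mlt s b c) * d c, where
mlt s b c = mlt c (du b) s and so the inner sum is at most d c * d (du b) = d c * d b.  Hence
(sum over S of d²) d b <= d b * (sum over T of d²). -/
def DB_out : Prop := ∀ (I V : Type) [Fintype I] [DecidableEq I] [Fintype V] [DecidableEq V]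
  (D : FD I V) (d : I → ℝ), D.Rg → D.IsDim d → ∀ S S' : Finset I, S ⊆ S' →
  (∀ s ∈ S, D.du s ∈ S) → (∀ v, D.s1 v ∈ S → D.s2 v ∈ S → D.t v ∈ S) →
  (∀ v, D.s1 v ∈ S' → D.s2 v ∈ S' → D.t v ∈ S') → (∃ b ∈ S', b ∉ S) →
  2 * ∑ s ∈ S, d s ^ 2 ≤ ∑ s ∈ S', d s ^ 2

def DB_stmt : Prop := KD_out → DB_out

/-- Row TD (the global dimension is at most the square of the total multiplicity).
Take b with d b maximal: d a d b = sum over c of mlt a b c * d c gives d a <= sum over c of
mlt a b c; sum over a. -/
def TD_out : Prop := ∀ (I V : Type) [Fintype I] [DecidableEq I] [Fintype V] [DecidableEq V]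
  (D : FD I V) (d : I → ℝ), D.IsDim d → ∑ a, d a ^ 2 ≤ (Fintype.card V : ℝ) ^ 2

def TD_stmt : Prop := TD_out

/-- Row GR (greedy generating set).
Consider the finite sets X inside {d <= z}, containing o (d o = 1), closed under du, with
card X <= 2 k + 1 and 2^k <= sum of d² over the objects generated by X, for some k; {o} is one
of them (k = 0).  Take one for which the set of the generated objects is as large as possible.
If it is not everything there is b with d b <= z not generated by X (otherwise everything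
generated by {d <= z} would be generated by X, CL); X with b and du b added has k + 1 by DB,
contradiction.  2^k <= (card V)^2 by TD. -/
def GR_out : Prop := ∀ (I V : Type) [Fintype I] [DecidableEq I] [Fintype V] [DecidableEq V]
  (D : FD I V) (d : I → ℝ) (z : ℝ), D.Rg → D.IsDim d → 1 ≤ z →
  (∀ b, D.Gen {a | d a ≤ z} b) →
  ∃ (X : Finset I) (k : ℕ), D.o ∈ X ∧ (∀ x ∈ X, D.du x ∈ X) ∧ (∀ x ∈ X, d x ≤ z) ∧
    (∀ b, D.Gen X b) ∧ X.card ≤ 2 * k + 1 ∧ 2 ^ k ≤ Fintype.card V ^ 2

def GR_stmt : Prop := KD_out → CL_out → DB_out → TD_out → GR_out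

/-- C' with its vertices and simple objects renamed is the system F on the types D. -/
def Mod (C' : SkelCat) {I V : Type} (D : FD I V) (F : V → V → V → V → ℂ) : Prop :=
  ∃ (σ : Fin C'.r ≃ I) (e : Fin C'.n ≃ V), (∀ v, D.s1 (e v) = σ (C'.s1 v)) ∧
    (∀ v, D.s2 (e v) = σ (C'.s2 v)) ∧ (∀ v, D.t (e v) = σ (C'.t v)) ∧
    ∀ α γ β δ, F (e α) (e γ) (e β) (e δ) = C'.F α γ β δ

/-- Row MO (two categories with the same fusion ring live on the same types).
C'.ring = C.ring gives C'.r = C.r and the same multiplicities (σ = Fin.cast), so there is a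
bijection e of the vertices preserving the types.  The unit objects agree: mult o o' b is
[o' = b] and [o = b]; then the dualities agree. -/
def MO_out : Prop := ∀ (C C' : SkelCat) (o : Fin C.r) (d : Fin C.r → Fin C.r)
  (D : FD (Fin C.r) (Fin C.n)), C.IsUFC o d → D.s1 = C.s1 → D.s2 = C.s2 → D.t = C.t →
  D.o = o → D.du = d → C'.UFC → C'.ring = C.ring → ∃ F', D.UFS F' ∧ Mod C' D F'

def MO_stmt : Prop := MO_out

/-- Row ME (gauge equivalent models belong to equivalent categories).
U v w = star or plain u (e₁ v) (e₂ w): if F₂ = act u F₁ then for the vertices of the model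
the sum over α' γ' of u α' α * u γ' γ conj ... ; use Gau.row, Gau.col to bring the relation in
the form comm (take U v w = star (u (e₂ w) (e₁ v))). -/
def ME_out : Prop := ∀ (C₁ C₂ : SkelCat) (I V : Type) [Fintype I] [DecidableEq I] [Fintype V]
  [DecidableEq V] (D : FD I V) (F₁ F₂ : V → V → V → V → ℂ), D.UF F₁ → D.UF F₂ →
  Mod C₁ D F₁ → Mod C₂ D F₂ → D.Geq F₁ F₂ → C₁.Equivalent C₂

def ME_stmt : Prop := ME_out

/-- The number of categories over one fusion ring. -/
def AA_out : Prop := ∀ (C : SkelCat) (o : Fin C.r) (d : Fin C.r → Fin C.r) (X : Finset (Fin C.r))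
  (M : ℕ), C.IsUFC o d → o ∈ X → (∀ x ∈ X, d x ∈ X) → (∀ b, C.Gen o X b) → C.n ≤ M → 2 ≤ M →
  ∀ (k : ℕ) (E : Fin k → SkelCat), (∀ i, (E i).UFC) → (∀ i, (E i).ring = C.ring) →
  (∀ i j, i ≠ j → ¬ (E i).Equivalent (E j)) → k ≤ M ^ (24 * C.kappa X)

/-- Row AA.
FDO gives D; MO gives F i on D for every i; ME: the F i are pairwise not Geq.  PT with
m = C.r = card I (Gen for C and for D agree), ONE, KQ (card Q = kap = kappa <= n^4 <= M^4).
(12 r² + 6 r + 4) * (2 κ) <= 22 M² * 2 M^4 <= M^12 (M >= 2, 1 <= r <= n <= M), to the power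
2 κ: M^(24 κ).  If κ = 0: not possible (o in X) but harmless. -/
def AA_stmt : Prop := FDO_out → RG_out → FRI_out → KQ_out → PT_out → MO_out → ME_out →
  ONE_out → AA_out

/-- Row FIB (fibre counting with the bound for the number of fusion rings; the proof is the one
of Pool/Agent/Results/MP_29f1cd_al/FusionRingCount.lean, from FR.asym_m). -/
def FIB_out : Prop := ∃ K : ℝ, 0 ≤ K ∧ ∀ (k : ℕ) (E : Fin k → SkelCat), (∀ i, (E i).UFC) →
  ∀ M b : ℕ, 2 ≤ M → (∀ i, (E i).n ≤ M) →
  (∀ i, (univ.filter fun j => (E j).ring = (E i).ring).card ≤ b) →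
  (k : ℝ) ≤ Real.exp (K * (M : ℝ) ^ (7 / 8 : ℝ) * (Real.log M) ^ 2) * b

def FIB_stmt : Prop := FRI_out → FIB_out

/-- Row CC1 (the class of the categories with generators of small dimension).
For a fixed ring take the member E i: GR (through FDO, RG; Small gives the dimension and z) gives
X with kappa X <= card X ^ 2 * Y (KD), card X <= 2 k + 1, 2^k <= n² <= M², so
card X <= 1 + 4 log M / log 2 <= K₁ log M; AA gives at most
M^(24 kappa) <= exp (K₂ Y (log M)³) members over this ring (b = the floor of this number),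
then FIB. -/
def CC1_out : Prop := ∃ K : ℝ, ∀ (M : ℕ) (Y : ℝ), 2 ≤ M → ∀ (k : ℕ) (E : Fin k → SkelCat),
  (∀ i, (E i).UFC) → (∀ i j, i ≠ j → ¬ (E i).Equivalent (E j)) → (∀ i, (E i).n ≤ M) →
  (∀ i, (E i).Small Y) →
  (k : ℝ) ≤ Real.exp (K * (Y + (M : ℝ) ^ (7 / 8 : ℝ)) * (Real.log M) ^ 3)

def CC1_stmt : Prop := FDO_out → RG_out → FRI_out → KQ_out → KD_out → GR_out → AA_out →
  FIB_out → CC1_out

/-- Row CC2 (all unitary fusion categories; X = univ, kappa X <= n^4 <= M^4). -/
def CC2_out : Prop := ∃ K : ℝ, ∀ (M : ℕ), 2 ≤ M → ∀ (k : ℕ) (E : Fin k → SkelCat),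
  (∀ i, (E i).UFC) → (∀ i j, i ≠ j → ¬ (E i).Equivalent (E j)) → (∀ i, (E i).n ≤ M) →
  (k : ℝ) ≤ Real.exp (K * (M : ℝ) ^ 4 * Real.log M)

def CC2_stmt : Prop := FDO_out → RG_out → FRI_out → KQ_out → AA_out → FIB_out → CC2_out

end Pool.Agent.helper93.TV
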