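import Pool.Agent.helper93.TV.L1
import Pool.Agent.helper93.TV.Spec3
import Pool.Agent.helper93.TV.CC0
import Pool.Agent.helper93.TV.Min4
import Pool.Agent.helper91.TV.TU
import Pool.Agent.helper98.TV.FP
import Pool.Agent.helper65.TV.FO
import Pool.Agent.helper52.TV.FK
import Pool.Agent.helper92.TV.PC
import Pool.Agent.helper36.TV.SR
import Pool.Agent.helper99.TV.SL
import Pool.Agent.helper77.TV.SC
import Pool.Agent.helper3.TV.SU
import Pool.Agent.helper55.TV.SE
import Pool.Agent.helper6.TV.SA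
import Pool.Agent.helper61.TV.SB
import Pool.Agent.helper93.TV.SI
import Pool.Agent.helper28.TV.SP
import Pool.Agent.helper45.TV.SG
import Pool.Agent.helper93.TV.SJ
import Pool.Agent.helper34.TV.DT
import Pool.Agent.helper44.TV.DP
import Pool.Agent.helper35.TV.DR
import Pool.Agent.helper25.TV.DF
import Pool.Agent.helper94.TV.DW
import Pool.Agent.helper51.TV.DJ
import Pool.Agent.helper99.TV.DX
import Pool.Agent.helper72.TV.PO
import Pool.Agent.helper89.TV.CT
import Pool.Agent.helper37.TV.BD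
import Pool.Agent.helper30.TV.PJ
import Pool.Agent.helper84.TV.RK
import Pool.Agent.helper2.TV.OC
import Pool.Agent.helper87.TV.OO
import Pool.Agent.helper82.TV.OD
import Pool.Agent.helper94.TV.ON
import Pool.Agent.helper15.TV.LI
import Pool.Agent.helper69.TV.BZ
import Pool.Agent.helper11.TV.ML
import Pool.Agent.helper56.TV.ONE
import Pool.Agent.helper32.TV.FDO
import Pool.Agent.helper44.TV.RG
import Pool.Agent.helper6.TV.FRI
import Pool.Agent.helper37.TV.KQ
import Pool.Agent.helper99.TV.PT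
import Pool.Agent.helper22.TV.KD
import Pool.Agent.helper28.TV.CL
import Pool.Agent.helper43.TV.DB
import Pool.Agent.helper79.TV.TD
import Pool.Agent.helper41.TV.GR
import Pool.Agent.helper98.TV.MO
import Pool.Agent.helper92.TV.ME
import Pool.Agent.helper99.TV.AA
import Pool.Agent.helper94.TV.FIB
import Pool.Agent.helper16.TV.CC1
import Pool.Agent.helper30.TV.CC2

/-! TV assembled: all rows. -/

namespace Pool.Agent.helper93.TV

theorem l_FP : FP_out := FP TU
theorem l_FK : FK_out := FK TU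
theorem l_PC : PC_out := PC TU l_FP FO l_FK
theorem l_SU : SU_out := SU SR SL SC
theorem l_SE : SE_out := SE SR SL SC
theorem l_SA : SA_out := SA SR SL SC l_SE
theorem l_SB : SB_out := SB SR SL SC l_SE
theorem l_SI : SI_out := SI SR SL
theorem l_SP : SP_out := SP SR SL SC l_SE l_SA l_SB l_SI
theorem l_DR : DR_out := DR U2 DP
theorem l_DF : DF_out := DF U1 U2 TU DT l_DR
theorem l_DW : DW_out := DW DT l_DF l_FP TU U1 U2 l_DR DP
theorem l_DJ : DJ_out := DJ DT l_DW TU l_DF l_FP U1 U2 l_DR DP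
theorem l_DX : DX_out := DX l_PC SR DT l_DW l_DJ TU l_DF l_FP FO l_FK U1 U2 l_DR DP
theorem l_RK : RK_out := RK l_PC FO l_FP l_FK TU CT PJ
theorem l_OC : OC_out := OC PO CT BD
theorem l_OO : OO_out := OO L1_Rig G l_PC FO l_FP l_FK TU l_SU l_SP SG SJ SR SL SC l_SE l_SA l_SB l_SI PO CT BD
  PJ l_RK
theorem l_OD : OD_out := OD SJ SG
theorem l_ON : ON_out := ON DT l_DW l_DJ l_DX
theorem l_BZ : BZ_out := BZ LI
theorem l_ML : ML_out := ML LI l_BZ
theorem l_ONE : ONE_out := ONE PO BD l_OC l_OO l_OD l_ON l_ML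
theorem l_FRI : FRI_out := FRI FDO RG
theorem l_DB : DB_out := DB KD
theorem l_GR : GR_out := GR KD CL l_DB TD
theorem L3_AA : AA_out := AA FDO RG l_FRI KQ PT MO ME l_ONE
theorem l_FIB : FIB_out := FIB l_FRI
theorem L3_CC0 : CC0_out := CC0 L3_AA l_FIB
theorem L3_CC1 : CC1_out := CC1 FDO RG l_FRI KQ KD l_GR L3_AA l_FIB
theorem L3_CC2 : CC2_out := CC2 FDO RG l_FRI KQ L3_AA l_FIB
theorem L3_CC3 : CC3_out := CC3 L3_CC1 L3_CC2

end Pool.Agent.helper93.TV
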